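import Mathlib

/-!
# Isometric extensions of W*-dynamical systems: definitions (helper303)
-/

set_option autoImplicit false

open scoped InnerProductSpace ENNReal NNReal

namespace Pool.Agent.N303.IE

universe u

/-- A system `(A, μ, α)` in its GNS representation: `A` is a von Neumann algebra on `H`, `Ω` is a
cyclic and separating unit vector such that `μ(a) = ⟪Ω, a Ω⟫` is a trace on `A`, `α` is a
`*`-automorphism of `A` preserving `μ`, `U` is the unitary with `U a Ω = α(a) Ω` and `J` is the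
modular conjugation, `J a Ω = a* Ω`. -/
structure Sys (H : Type u) [NormedAddCommGroup H] [InnerProductSpace ℂ H] [CompleteSpace H] where
  A : VonNeumannAlgebra H
  Ω : H
  norm_Ω : ‖Ω‖ = 1
  cyclic : Dense {x : H | ∃ a ∈ A, a Ω = x}
  separating : ∀ a ∈ A, a Ω = 0 → a = 0
  tracial : ∀ a ∈ A, ∀ b ∈ A, ⟪Ω, (a * b) Ω⟫_ℂ = ⟪Ω, (b * a) Ω⟫_ℂ
  α : A.toStarSubalgebra ≃⋆ₐ[ℂ] A.toStarSubalgebra
  pres : ∀ a : A.toStarSubalgebra,
    ⟪Ω, (α a : H →L[ℂ] H) Ω⟫_ℂ = ⟪Ω, (a : H →L[ℂ] H) Ω⟫_ℂ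
  U : H ≃ₗᵢ[ℂ] H
  U_apply : ∀ a : A.toStarSubalgebra, U ((a : H →L[ℂ] H) Ω) = (α a : H →L[ℂ] H) Ω
  J : H →ₛₗᵢ[starRingEnd ℂ] H
  J_apply : ∀ a ∈ A, J (a Ω) = (star a) Ω

variable {H : Type u} [NormedAddCommGroup H] [InnerProductSpace ℂ H] [CompleteSpace H]

/-- The trace `μ(a) = ⟪Ω, a Ω⟫`. -/
noncomputable def Sys.mu (S : Sys H) (a : H →L[ℂ] H) : ℂ := ⟪S.Ω, a S.Ω⟫_ℂ

/-- A subsystem: a von Neumann subalgebra `F` of `A` (containing `1`) with `α(F) = F`. -/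
structure Sub (S : Sys H) where
  F : VonNeumannAlgebra H
  le : ∀ a ∈ F, a ∈ S.A
  inv : ∀ a : S.A.toStarSubalgebra, (S.α a : H →L[ℂ] H) ∈ F ↔ (a : H →L[ℂ] H) ∈ F

variable {S : Sys H}

/-- `H_F`, the closure of `F Ω`. -/
noncomputable def Sub.HF (F : Sub S) : Submodule ℂ H :=
  (Submodule.span ℂ {x : H | ∃ f ∈ F.F, f S.Ω = x}).topologicalClosure

/-- The orthogonal projection onto the closure of the linear subspace `V` (onto `V` when `V` is
closed). -/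
noncomputable def proj (V : Submodule ℂ H) : H →L[ℂ] H := V.topologicalClosure.starProjection

/-- The projection `e_F` onto `H_F`. -/
noncomputable def Sub.e (F : Sub S) : H →L[ℂ] H := proj F.HF

/-- The basic construction `⟨A, e_F⟩`: the von Neumann algebra generated by `A` and `e_F`,
i.e. the double commutant of `A ∪ {e_F}`. -/
noncomputable def Sub.basic (F : Sub S) : Set (H →L[ℂ] H) :=
  Set.centralizer (Set.centralizer ({x : H →L[ℂ] H | x ∈ S.A} ∪ {F.e}))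

/-- The canonical trace of the basic construction: a faithful semifinite normal trace `tr` on the
positive part of `⟨A, e_F⟩` with `tr(a e_F a*) = μ(a a*)` for `a ∈ A`. -/
structure BTrace (F : Sub S) where
  tr : (H →L[ℂ] H) → ℝ≥0∞
  add : ∀ x ∈ F.basic, ∀ y ∈ F.basic, 0 ≤ x → 0 ≤ y → tr (x + y) = tr x + tr y
  smul : ∀ c : ℝ≥0, ∀ x ∈ F.basic, 0 ≤ x → tr (((c : ℝ) : ℂ) • x) = c * tr x
  trace : ∀ x ∈ F.basic, tr (star x * x) = tr (x * star x)
  faithful : ∀ x ∈ F.basic, 0 ≤ x → tr x = 0 → x = 0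
  normal : ∀ D : Set (H →L[ℂ] H), D.Nonempty → DirectedOn (· ≤ ·) D →
    (∀ x ∈ D, x ∈ F.basic ∧ 0 ≤ x) → ∀ y, IsLUB D y → tr y = ⨆ x ∈ D, tr x
  semifinite : ∀ x ∈ F.basic, 0 ≤ x → x ≠ 0 →
    ∃ y ∈ F.basic, 0 ≤ y ∧ y ≤ x ∧ y ≠ 0 ∧ tr y < ∞
  formula : ∀ a ∈ S.A, tr (a * F.e * star a) = ENNReal.ofReal (S.mu (a * star a)).re

/-- `V` is a `U`-`μ̄`-module for the subsystem `F`, whose canonical trace is `τ`: a closed right
`F`-module `V ⊆ H ⊖ H_F` with `U V = V` and `μ̄(P_V) < ∞`. -/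
structure IsUMod {F : Sub S} (τ : BTrace F) (V : Submodule ℂ H) : Prop where
  closed : IsClosed (V : Set H)
  right : ∀ f ∈ F.F, ∀ v ∈ V, S.J ((star f) (S.J v)) ∈ V
  perp : V ≤ F.HFᗮ
  Uinv : V.map (S.U.toLinearEquiv : H →ₗ[ℂ] H) = V
  fin : τ.tr (proj V) < ∞

/-- `E_{A/F}`: the closed linear span of all `U`-`μ̄`-modules. -/
noncomputable def E {F : Sub S} (τ : BTrace F) : Submodule ℂ H :=
  (⨆ (V : Submodule ℂ H) (_ : IsUMod τ V), V).topologicalClosure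

/-- The system is an isometric extension of its subsystem `F`: `E_{A/F} = H ⊖ H_F`. -/
def IsometricExt {F : Sub S} (τ : BTrace F) : Prop := E τ = F.HFᗮ

end Pool.Agent.N303.IE
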