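import Mathlib
import Pool.Agent.N303.IE.Defs

/-!
# Part A: right multiplications and the commutation theorem
-/

set_option autoImplicit false

open scoped InnerProductSpace ENNReal NNReal

namespace Pool.Agent.N303.IE

universe u

variable {H : Type u} [NormedAddCommGroup H] [InnerProductSpace ℂ H] [CompleteSpace H]
variable (S : Sys H)

lemma inner_star (a : H →L[ℂ] H) (ξ η : H) : ⟪(star a) ξ, η⟫_ℂ = ⟪ξ, a η⟫_ℂ := by
  rw [ContinuousLinearMap.star_eq_adjoint, ContinuousLinearMap.adjoint_inner_left]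

lemma inner_star' (a : H →L[ℂ] H) (ξ η : H) : ⟪ξ, (star a) η⟫_ℂ = ⟪a ξ, η⟫_ℂ := by
  rw [ContinuousLinearMap.star_eq_adjoint, ContinuousLinearMap.adjoint_inner_right]

/-- density induction -/
lemma Sys.dense_ind {P : H → Prop} (hc : IsClosed {x | P x}) (h : ∀ a ∈ S.A, P (a S.Ω))
    (x : H) : P x := by
  have := S.cyclic.closure_eq
  have h2 : closure {x : H | ∃ a ∈ S.A, a S.Ω = x} ⊆ {x | P x} := by
    apply closure_minimal _ hc
    rintro _ ⟨a, ha, rfl⟩
    exact h a ha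
  rw [this] at h2
  exact h2 (Set.mem_univ x)

lemma clm_ext {X Y : H →L[ℂ] H} (h : ∀ a ∈ S.A, X (a S.Ω) = Y (a S.Ω)) : X = Y := by
  ext x
  exact S.dense_ind (P := fun x => X x = Y x) (isClosed_eq X.continuous Y.continuous) h x

lemma tr_comm {a b : H →L[ℂ] H} (ha : a ∈ S.A) (hb : b ∈ S.A) :
    ⟪(star a) S.Ω, b S.Ω⟫_ℂ = ⟪(star b) S.Ω, a S.Ω⟫_ℂ := by
  rw [inner_star, inner_star]
  exact S.tracial a ha b hb

lemma J_inner (x y : H) : ⟪S.J x, S.J y⟫_ℂ = ⟪y, x⟫_ℂ := by
  refine S.dense_ind (P := fun x => ⟪S.J x, S.J y⟫_ℂ = ⟪y, x⟫_ℂ) (isClosed_eq ?_ ?_) ?_ x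
  · exact (S.J.continuous).inner continuous_const
  · exact continuous_const.inner continuous_id
  intro a ha
  refine S.dense_ind (P := fun y => ⟪S.J (a S.Ω), S.J y⟫_ℂ = ⟪y, a S.Ω⟫_ℂ)
    (isClosed_eq ?_ ?_) ?_ y
  · exact continuous_const.inner S.J.continuous
  · exact continuous_id.inner continuous_const
  intro b hb
  rw [S.J_apply a ha, S.J_apply b hb, tr_comm S ha (star_mem hb), star_star]

lemma J_J (x : H) : S.J (S.J x) = x := by
  refine S.dense_ind (P := fun x => S.J (S.J x) = x) (isClosed_eq ?_ continuous_id) ?_ x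
  · exact S.J.continuous.comp S.J.continuous
  intro a ha
  rw [S.J_apply a ha, S.J_apply _ (star_mem ha), star_star]

lemma J_inner' (x y : H) : ⟪S.J x, y⟫_ℂ = ⟪S.J y, x⟫_ℂ := by
  conv_lhs => rw [← J_J S y]
  rw [J_inner]

lemma J_Ω : S.J S.Ω = S.Ω := by
  have := S.J_apply 1 (one_mem _)
  simpa using this

/-- conjugation of an operator by `J` -/
noncomputable def Sys.C (f : H →L[ℂ] H) : H →L[ℂ] H :=
  (S.J.toContinuousLinearMap).comp (f.comp S.J.toContinuousLinearMap)

lemma C_apply (f : H →L[ℂ] H) (x : H) : S.C f x = S.J (f (S.J x)) := rfl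

/-- right multiplication by `f` -/
noncomputable def Sys.R (f : H →L[ℂ] H) : H →L[ℂ] H := S.C (star f)

lemma R_apply (f : H →L[ℂ] H) (x : H) : S.R f x = S.J ((star f) (S.J x)) := rfl

lemma C_mul (f g : H →L[ℂ] H) : S.C (f * g) = S.C f * S.C g := by
  ext x
  show S.J (f (g (S.J x))) = S.J (f (S.J (S.J (g (S.J x)))))
  rw [J_J]

lemma C_C (f : H →L[ℂ] H) : S.C (S.C f) = f := by
  ext x
  simp only [C_apply, J_J]

lemma C_star (f : H →L[ℂ] H) : S.C (star f) = star (S.C f) := by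
  ext x
  refine ext_inner_left ℂ fun y => ?_
  rw [inner_star', C_apply, C_apply, ← J_inner, J_J, inner_star, ← J_inner, J_J]

lemma R_star (f : H →L[ℂ] H) : S.R (star f) = star (S.R f) := by
  rw [Sys.R, Sys.R, C_star]

lemma R_mul (f g : H →L[ℂ] H) : S.R f * S.R g = S.R (g * f) := by
  rw [Sys.R, Sys.R, Sys.R, star_mul, C_mul]

lemma R_one : S.R 1 = 1 := by
  ext x
  simp [R_apply, J_J]

lemma R_vec {a f : H →L[ℂ] H} (ha : a ∈ S.A) (hf : f ∈ S.A) :
    S.R f (a S.Ω) = (a * f) S.Ω := by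
  rw [R_apply, S.J_apply a ha]
  have : (star f) ((star a) S.Ω) = (star f * star a) S.Ω := rfl
  rw [this, S.J_apply _ (mul_mem (star_mem hf) (star_mem ha))]
  simp

lemma R_Ω {f : H →L[ℂ] H} (hf : f ∈ S.A) : S.R f S.Ω = f S.Ω := by
  have := R_vec S (one_mem S.A) hf
  simpa using this

lemma R_comm {a f : H →L[ℂ] H} (ha : a ∈ S.A) (hf : f ∈ S.A) : S.R f * a = a * S.R f := by
  apply clm_ext S
  intro b hb
  show S.R f ((a * b) S.Ω) = a (S.R f (b S.Ω))
  rw [R_vec S (mul_mem ha hb) hf, R_vec S hb hf, mul_assoc]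
  rfl

/-- the commutant acts by right multiplications -/
lemma J_comm {T : H →L[ℂ] H} (hT : ∀ a ∈ S.A, a * T = T * a) :
    S.J (T S.Ω) = (star T) S.Ω := by
  refine ext_inner_right ℂ fun y => ?_
  refine S.dense_ind (P := fun y => ⟪S.J (T S.Ω), y⟫_ℂ = ⟪(star T) S.Ω, y⟫_ℂ)
    (isClosed_eq (continuous_const.inner continuous_id) (continuous_const.inner continuous_id))
    ?_ y
  intro a ha
  rw [J_inner', S.J_apply a ha, inner_star, inner_star]
  have : a (T S.Ω) = T (a S.Ω) := congrArg (fun X : H →L[ℂ] H => X S.Ω) (hT a ha)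
  rw [this]

lemma star_comm {T : H →L[ℂ] H} (hT : ∀ a ∈ S.A, a * T = T * a) :
    ∀ a ∈ S.A, a * star T = star T * a := by
  intro a ha
  have := congrArg star (hT (star a) (star_mem ha))
  simpa using this.symm

theorem commutation {T : H →L[ℂ] H} (hT : ∀ a ∈ S.A, a * T = T * a) :
    ∃ a ∈ S.A, T = S.R a := by
  refine ⟨S.C (star T), ?_, ?_⟩
  swap
  · rw [Sys.R, ← C_star, star_star, C_C]
  have hC : S.C (star T) ∈ Set.centralizer (Set.centralizer (S.A : Set (H →L[ℂ] H))) := by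
    intro y hy
    have hy' : ∀ a ∈ S.A, a * y = y * a := fun a ha => hy a ha
    -- it suffices to check on vectors of the commutant
    have key : ∀ z : H →L[ℂ] H, (∀ a ∈ S.A, a * z = z * a) →
        S.C (star T) (z S.Ω) = z (T S.Ω) := by
      intro z hz
      rw [C_apply, J_comm S hz]
      have h1 : (star T) ((star z) S.Ω) = (star (z * T)) S.Ω := by
        rw [star_mul]; rfl
      have hzT : ∀ a ∈ S.A, a * (z * T) = (z * T) * a := by
        intro a ha
        rw [← mul_assoc, hz a ha, mul_assoc, hT a ha, mul_assoc]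
      rw [h1, ← J_comm S hzT, J_J]
      rfl
    apply clm_ext S
    intro a ha
    have ha' : ∀ b ∈ S.A, b * S.R a = S.R a * b := fun b hb => (R_comm S hb ha).symm
    have hya : ∀ b ∈ S.A, b * (y * S.R a) = (y * S.R a) * b := by
      intro b hb
      rw [← mul_assoc, hy' b hb, mul_assoc, ha' b hb, mul_assoc]
    rw [← R_Ω S ha]
    show y (S.C (star T) (S.R a S.Ω)) = S.C (star T) ((y * S.R a) S.Ω)
    rw [key _ ha', key _ hya]
    rfl
  rw [VonNeumannAlgebra.centralizer_centralizer] at hC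
  exact hC

end Pool.Agent.N303.IE
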