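import Mathlib
import Pool.Agent.N303.IE.A

/-!
# Part B: projections, and the corner `e_F ⟨A, e_F⟩ e_F`
-/

set_option autoImplicit false
set_option linter.unusedSectionVars false
set_option linter.unusedVariables false

open scoped InnerProductSpace ENNReal NNReal Topology
open Filter

namespace Pool.Agent.N303.IE

universe u

variable {H : Type u} [NormedAddCommGroup H] [InnerProductSpace ℂ H] [CompleteSpace H]

section proj

variable (V : Submodule ℂ H)

lemma proj_mem (x : H) : proj V x ∈ V.topologicalClosure :=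
  Submodule.starProjection_apply_mem _ x

lemma proj_mem' {V : Submodule ℂ H} (hV : IsClosed (V : Set H)) (x : H) : proj V x ∈ V := by
  have := proj_mem V x
  rwa [hV.submodule_topologicalClosure_eq] at this

lemma proj_inner (x : H) {y : H} (hy : y ∈ V.topologicalClosure) : ⟪x - proj V x, y⟫_ℂ = 0 :=
  Submodule.starProjection_inner_eq_zero _ _ hy

lemma proj_inner' (x : H) {y : H} (hy : y ∈ V) : ⟪x - proj V x, y⟫_ℂ = 0 :=
  proj_inner V x (Submodule.le_topologicalClosure _ hy)

/-- a vector orthogonal to `V` is orthogonal to the closure -/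
lemma inner_clos {V : Submodule ℂ H} {x : H} (h : ∀ w ∈ V, ⟪x, w⟫_ℂ = 0) {y : H}
    (hy : y ∈ V.topologicalClosure) : ⟪x, y⟫_ℂ = 0 := by
  have h2 : closure (V : Set H) ⊆ {y | ⟪x, y⟫_ℂ = 0} :=
    closure_minimal h (isClosed_eq (continuous_const.inner continuous_id) continuous_const)
  exact h2 hy

lemma proj_unique {V : Submodule ℂ H} {x y : H} (hy : y ∈ V.topologicalClosure)
    (h : ∀ w ∈ V, ⟪x - y, w⟫_ℂ = 0) : proj V x = y := by
  apply Submodule.eq_starProjection_of_mem_of_inner_eq_zero hy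
  intro w hw
  exact inner_clos h hw

lemma proj_self {V : Submodule ℂ H} {x : H} (hx : x ∈ V.topologicalClosure) : proj V x = x :=
  proj_unique hx (by simp)

lemma proj_self' {V : Submodule ℂ H} {x : H} (hx : x ∈ V) : proj V x = x :=
  proj_self (Submodule.le_topologicalClosure _ hx)

lemma proj_zero {V : Submodule ℂ H} {x : H} (hx : ∀ w ∈ V, ⟪x, w⟫_ℂ = 0) : proj V x = 0 :=
  proj_unique (zero_mem _) (by simpa using hx)

lemma proj_idem (V : Submodule ℂ H) : proj V * proj V = proj V := by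
  ext x
  exact proj_self (proj_mem V x)

lemma proj_star (V : Submodule ℂ H) : star (proj V) = proj V := by
  rw [ContinuousLinearMap.star_eq_adjoint]
  exact (isSelfAdjoint_starProjection V.topologicalClosure)

lemma proj_symm (V : Submodule ℂ H) (x y : H) : ⟪proj V x, y⟫_ℂ = ⟪x, proj V y⟫_ℂ := by
  rw [← inner_star', proj_star]

lemma proj_nonneg (V : Submodule ℂ H) : 0 ≤ proj V := by
  have : proj V = star (proj V) * proj V := by rw [proj_star, proj_idem]
  rw [this]
  exact star_mul_self_nonneg _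

lemma proj_comm {V : Submodule ℂ H} {T : H →L[ℂ] H} (h : ∀ v ∈ V, T v ∈ V.topologicalClosure)
    (h' : ∀ v ∈ V, (star T) v ∈ V.topologicalClosure) : proj V * T = T * proj V := by
  ext x
  show proj V (T x) = T (proj V x)
  apply proj_unique
  · have h1 := proj_mem V x
    have h2 : closure (V : Set H) ⊆ {y | T y ∈ V.topologicalClosure} := by
      apply closure_minimal h
      exact (Submodule.isClosed_topologicalClosure V).preimage T.continuous
    exact h2 h1
  · intro w hw
    rw [← map_sub, ← inner_star']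
    exact proj_inner V x (h' w hw)

lemma proj_clos (V : Submodule ℂ H) : proj V.topologicalClosure = proj V := by
  ext x
  apply proj_unique (proj_mem V x |> fun h => Submodule.le_topologicalClosure _ h)
  intro w hw
  exact proj_inner V x hw

lemma proj_mono {V W : Submodule ℂ H} (h : V ≤ W) : proj V * proj W = proj V := by
  ext x
  show proj V (proj W x) = proj V x
  symm
  apply proj_unique (proj_mem V _)
  intro w hw
  have e : x - proj V (proj W x) = (x - proj W x) + (proj W x - proj V (proj W x)) := by abel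
  rw [e, inner_add_left, proj_inner' W x (h hw), proj_inner' V _ hw, add_zero]

lemma proj_mono' {V W : Submodule ℂ H} (h : V ≤ W) : proj W * proj V = proj V := by
  have := congrArg star (proj_mono h)
  simpa [proj_star] using this

lemma proj_le {V W : Submodule ℂ H} (h : V ≤ W) : proj V ≤ proj W := by
  rw [← sub_nonneg]
  have : proj W - proj V = star (proj W - proj V) * (proj W - proj V) := by
    rw [star_sub, proj_star, proj_star, sub_mul, mul_sub, mul_sub, proj_idem, proj_idem,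
      proj_mono h, proj_mono' h]
    abel
  rw [this]
  exact star_mul_self_nonneg _

end proj

section sub

variable {S : Sys H} (F : Sub S)

/-- the vectors `f Ω` -/
def Sub.vecs : Submodule ℂ H where
  carrier := {x : H | ∃ f ∈ F.F, f S.Ω = x}
  zero_mem' := ⟨0, zero_mem _, by simp⟩
  add_mem' := by
    rintro _ _ ⟨f, hf, rfl⟩ ⟨g, hg, rfl⟩
    exact ⟨f + g, add_mem hf hg, rfl⟩
  smul_mem' := by
    rintro c _ ⟨f, hf, rfl⟩
    exact ⟨c • f, F.F.toStarSubalgebra.smul_mem hf c, rfl⟩

lemma HF_eq : F.HF = F.vecs.topologicalClosure := by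
  have : Submodule.span ℂ {x : H | ∃ f ∈ F.F, f S.Ω = x} = F.vecs :=
    Submodule.span_eq F.vecs
  rw [Sub.HF, this]

lemma vec_mem {f : H →L[ℂ] H} (hf : f ∈ F.F) : f S.Ω ∈ F.HF := by
  rw [HF_eq]
  exact Submodule.le_topologicalClosure _ ⟨f, hf, rfl⟩

lemma HF_closed : IsClosed (F.HF : Set H) := by
  rw [Sub.HF]
  exact Submodule.isClosed_topologicalClosure _

lemma HF_ind {P : H → Prop} (hc : IsClosed {x | P x}) (h : ∀ f ∈ F.F, P (f S.Ω)) {x : H}
    (hx : x ∈ F.HF) : P x := by
  rw [HF_eq] at hx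
  have h2 : closure (F.vecs : Set H) ⊆ {x | P x} := by
    apply closure_minimal _ hc
    rintro _ ⟨a, ha, rfl⟩
    exact h a ha
  exact h2 hx

lemma HF_orth {x : H} (h : ∀ f ∈ F.F, ⟪x, f S.Ω⟫_ℂ = 0) {y : H} (hy : y ∈ F.HF) :
    ⟪x, y⟫_ℂ = 0 :=
  HF_ind F (P := fun y => ⟪x, y⟫_ℂ = 0)
    (isClosed_eq (continuous_const.inner continuous_id) continuous_const) h hy

lemma Ω_mem : S.Ω ∈ F.HF := by
  have := vec_mem F (one_mem F.F)
  simpa using this

lemma e_mem (x : H) : F.e x ∈ F.HF := proj_mem' (HF_closed F) x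

lemma e_self {x : H} (hx : x ∈ F.HF) : F.e x = x := proj_self' hx

lemma e_zero {x : H} (hx : ∀ f ∈ F.F, ⟪x, f S.Ω⟫_ℂ = 0) : F.e x = 0 :=
  proj_zero fun _ hw => HF_orth F hx hw

lemma e_idem : F.e * F.e = F.e := proj_idem _

lemma e_star : star F.e = F.e := proj_star _

lemma JHF {x : H} (hx : x ∈ F.HF) : S.J x ∈ F.HF := by
  refine HF_ind F (P := fun x => S.J x ∈ F.HF) ((HF_closed F).preimage S.J.continuous) ?_ hx
  intro f hf
  rw [S.J_apply f (F.le f hf)]
  exact vec_mem F (star_mem hf)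

lemma RHF {g : H →L[ℂ] H} (hg : g ∈ F.F) {x : H} (hx : x ∈ F.HF) : S.R g x ∈ F.HF := by
  refine HF_ind F (P := fun x => S.R g x ∈ F.HF) ((HF_closed F).preimage (S.R g).continuous) ?_ hx
  intro f hf
  rw [R_vec S (F.le f hf) (F.le g hg)]
  exact vec_mem F (mul_mem hf hg)

lemma LHF {g : H →L[ℂ] H} (hg : g ∈ F.F) {x : H} (hx : x ∈ F.HF) : g x ∈ F.HF := by
  refine HF_ind F (P := fun x => g x ∈ F.HF) ((HF_closed F).preimage g.continuous) ?_ hx
  intro f hf
  exact vec_mem F (mul_mem hg hf)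

lemma comm_e {T : H →L[ℂ] H} (h : ∀ v ∈ F.HF, T v ∈ F.HF) (h' : ∀ v ∈ F.HF, (star T) v ∈ F.HF) :
    F.e * T = T * F.e := by
  apply proj_comm
  · intro v hv
    exact Submodule.le_topologicalClosure _ (h v hv)
  · intro v hv
    exact Submodule.le_topologicalClosure _ (h' v hv)

lemma R_e {g : H →L[ℂ] H} (hg : g ∈ F.F) : F.e * S.R g = S.R g * F.e := by
  apply comm_e F (fun v hv => RHF F hg hv)
  intro v hv
  rw [← R_star]
  exact RHF F (star_mem hg) hv

lemma L_e {g : H →L[ℂ] H} (hg : g ∈ F.F) : F.e * g = g * F.e :=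
  comm_e F (fun _ hv => LHF F hg hv) (fun _ hv => LHF F (star_mem hg) hv)

/-- the commutant of the right multiplications by `F` -/
def Sub.RC : Set (H →L[ℂ] H) := {T | ∀ f ∈ F.F, S.R f * T = T * S.R f}

variable {F}

lemma RC_star {T : H →L[ℂ] H} (hT : T ∈ F.RC) : star T ∈ F.RC := by
  intro f hf
  have := congrArg star (hT (star f) (star_mem hf))
  simpa [R_star] using this.symm

lemma RC_mul {T T' : H →L[ℂ] H} (hT : T ∈ F.RC) (hT' : T' ∈ F.RC) : T * T' ∈ F.RC := by
  intro f hf
  rw [← mul_assoc, hT f hf, mul_assoc, hT' f hf, mul_assoc]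

lemma RC_add {T T' : H →L[ℂ] H} (hT : T ∈ F.RC) (hT' : T' ∈ F.RC) : T + T' ∈ F.RC := by
  intro f hf
  rw [mul_add, add_mul, hT f hf, hT' f hf]

lemma RC_sub {T T' : H →L[ℂ] H} (hT : T ∈ F.RC) (hT' : T' ∈ F.RC) : T - T' ∈ F.RC := by
  intro f hf
  rw [mul_sub, sub_mul, hT f hf, hT' f hf]

lemma RC_A {a : H →L[ℂ] H} (ha : a ∈ S.A) : a ∈ F.RC := fun f hf =>
  R_comm S ha (F.le f hf)

lemma RC_e : F.e ∈ F.RC := fun f hf => (R_e F hf).symm

lemma RC_apply {T : H →L[ℂ] H} (hT : T ∈ F.RC) {f : H →L[ℂ] H} (hf : f ∈ F.F) (x : H) :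
    S.R f (T x) = T (S.R f x) := congrArg (fun X : H →L[ℂ] H => X x) (hT f hf)

lemma RC_vec {T : H →L[ℂ] H} (hT : T ∈ F.RC) {f : H →L[ℂ] H} (hf : f ∈ F.F) :
    T (f S.Ω) = S.R f (T S.Ω) := by
  rw [RC_apply hT hf, R_Ω S (F.le f hf)]

end sub

end Pool.Agent.N303.IE
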