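import Mathlib
import Pool.Agent.N303.IE.B

/-!
# Part C: the resolvent argument
-/

set_option autoImplicit false
set_option linter.unusedSectionVars false
set_option linter.unusedVariables false

open scoped InnerProductSpace ENNReal NNReal Topology
open Filter

namespace Pool.Agent.N303.IE

universe u

variable {H : Type u} [NormedAddCommGroup H] [InnerProductSpace ℂ H] [CompleteSpace H]

/-- Elements of a von Neumann algebra: strong limits. -/
lemma sot_closed (G : VonNeumannAlgebra H) {T : H →L[ℂ] H} {t : ℕ → H →L[ℂ] H}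
    (ht : ∀ n, t n ∈ G) (h : ∀ x, Tendsto (fun n => t n x) atTop (𝓝 (T x))) : T ∈ G := by
  have : T ∈ Set.centralizer (Set.centralizer (G : Set (H →L[ℂ] H))) := by
    intro y hy
    ext x
    show y (T x) = T (y x)
    have h1 : Tendsto (fun n => y (t n x)) atTop (𝓝 (y (T x))) :=
      (y.continuous.tendsto _).comp (h x)
    have h2 : Tendsto (fun n => t n (y x)) atTop (𝓝 (T (y x))) := h (y x)
    have h3 : (fun n => y (t n x)) = fun n => t n (y x) := by
      funext n
      exact (congrArg (fun X : H →L[ℂ] H => X x) (hy (t n) (ht n))).symm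
    rw [h3] at h1
    exact tendsto_nhds_unique h1 h2
  rw [VonNeumannAlgebra.centralizer_centralizer] at this
  exact this

/-- the resolvent at `i` of a selfadjoint operator -/
lemma exists_res {T : H →L[ℂ] H} (hT : star T = T) :
    ∃ r : H →L[ℂ] H, r * (T - Complex.I • 1) = 1 ∧ (T - Complex.I • 1) * r = 1 ∧
      (∀ x, ‖r x‖ ≤ ‖x‖) ∧ ∀ y : H →L[ℂ] H, y * T = T * y → y * r = r * y := by
  have hu : IsUnit (T - Complex.I • (1 : H →L[ℂ] H)) := by
    have h1 : Complex.I ∉ spectrum ℂ T := by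
      intro hI
      have hs : IsSelfAdjoint T := hT
      have := hs.mem_spectrum_eq_re hI
      have h2 := congrArg Complex.im this
      simp at h2
    rw [spectrum.notMem_iff] at h1
    have h3 : (T - Complex.I • (1 : H →L[ℂ] H)) =
        -((algebraMap ℂ (H →L[ℂ] H)) Complex.I - T) := by
      rw [Algebra.algebraMap_eq_smul_one]
      abel
    rw [h3]
    exact h1.neg
  obtain ⟨u, hu⟩ := hu
  refine ⟨(u⁻¹ : (H →L[ℂ] H)ˣ), ?_, ?_, ?_, ?_⟩
  · rw [← hu, Units.inv_mul]
  · rw [← hu, Units.mul_inv]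
  · intro x
    set y := ((u⁻¹ : (H →L[ℂ] H)ˣ) : H →L[ℂ] H) x with hy
    have hx : x = T y - Complex.I • y := by
      have h1 : (T - Complex.I • (1 : H →L[ℂ] H)) * ((u⁻¹ : (H →L[ℂ] H)ˣ) : H →L[ℂ] H) = 1 := by
        rw [← hu, Units.mul_inv]
      have := congrArg (fun X : H →L[ℂ] H => X x) h1
      simpa [hy] using this.symm
    have h2 : ‖x‖ ^ 2 = ‖T y‖ ^ 2 + ‖y‖ ^ 2 := by
      rw [hx, @norm_sub_sq ℂ]
      have h3 : RCLike.re ⟪T y, Complex.I • y⟫_ℂ = 0 := by
        have hre : (⟪T y, y⟫_ℂ).im = 0 := by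
          have h4 : ⟪T y, y⟫_ℂ = ⟪y, T y⟫_ℂ := by
            rw [← inner_star', hT]
          have h5 : (starRingEnd ℂ) ⟪T y, y⟫_ℂ = ⟪T y, y⟫_ℂ := by
            rw [inner_conj_symm, h4]
          exact Complex.conj_eq_iff_im.mp h5
        rw [inner_smul_right]
        show (Complex.I * ⟪T y, y⟫_ℂ).re = 0
        rw [Complex.mul_re]
        simp [hre]
      rw [h3, norm_smul]
      simp
    have h3 : ‖y‖ ^ 2 ≤ ‖x‖ ^ 2 := by
      rw [h2]
      nlinarith [sq_nonneg ‖T y‖]
    exact le_of_sq_le_sq h3 (norm_nonneg _) |> fun h => h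
  · intro y hy
    have h1 : y * (u : H →L[ℂ] H) = u * y := by
      rw [hu, mul_sub, sub_mul, hy]
      simp
    calc y * ((u⁻¹ : (H →L[ℂ] H)ˣ) : H →L[ℂ] H)
        = (u⁻¹ : (H →L[ℂ] H)ˣ) * (u * y) * (u⁻¹ : (H →L[ℂ] H)ˣ) := by
          rw [← mul_assoc, Units.inv_mul, one_mul]
      _ = (u⁻¹ : (H →L[ℂ] H)ˣ) * (y * u) * (u⁻¹ : (H →L[ℂ] H)ˣ) := by rw [h1]
      _ = (u⁻¹ : (H →L[ℂ] H)ˣ) * y := by
          rw [mul_assoc, mul_assoc, Units.mul_inv, mul_one]

/-- if `T ∈ G` is selfadjoint then so is its resolvent -/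
lemma res_mem (G : VonNeumannAlgebra H) {T r : H →L[ℂ] H} (hT : T ∈ G)
    (hr : ∀ y : H →L[ℂ] H, y * T = T * y → y * r = r * y) : r ∈ G := by
  have : r ∈ Set.centralizer (Set.centralizer (G : Set (H →L[ℂ] H))) := by
    intro y hy
    exact hr y (hy T hT).symm
  rw [VonNeumannAlgebra.centralizer_centralizer] at this
  exact this

/-- pointwise limits of contractions on a dense set -/
lemma exists_lim (S : Sys H) {t : ℕ → H →L[ℂ] H} (ht : ∀ n x, ‖t n x‖ ≤ ‖x‖)
    (h : ∀ a ∈ S.A, ∃ y, Tendsto (fun n => t n (a S.Ω)) atTop (𝓝 y)) :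
    ∃ T : H →L[ℂ] H, ∀ x, Tendsto (fun n => t n x) atTop (𝓝 (T x)) := by
  have hc : ∀ x, CauchySeq (fun n => t n x) := by
    intro x
    refine S.dense_ind (P := fun x => CauchySeq (fun n => t n x)) ?_ ?_ x
    · rw [← isSeqClosed_iff_isClosed]
      intro f x hf hx
      rw [Set.mem_ofPred_eq, Metric.cauchySeq_iff]
      intro ε hε
      rw [Metric.tendsto_atTop] at hx
      obtain ⟨N, hN⟩ := hx (ε / 3) (by positivity)
      have hf' := hf N
      rw [Set.mem_ofPred_eq, Metric.cauchySeq_iff] at hf'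
      obtain ⟨M, hM⟩ := hf' (ε / 3) (by positivity)
      refine ⟨M, fun m hm n hn => ?_⟩
      have h1 := hM m hm n hn
      have h2 := hN N le_rfl
      have h3 : ∀ k, dist (t k x) (t k (f N)) < ε / 3 := by
        intro k
        rw [dist_eq_norm, ← map_sub]
        rw [dist_comm, dist_eq_norm] at h2
        exact (ht k _).trans_lt h2
      calc dist (t m x) (t n x) ≤ dist (t m x) (t m (f N)) + dist (t m (f N)) (t n (f N))
            + dist (t n (f N)) (t n x) := dist_triangle4 _ _ _ _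
        _ < ε / 3 + ε / 3 + ε / 3 := by
            have h4 := h3 m
            have h5 := h3 n
            rw [dist_comm] at h5
            gcongr
        _ = ε := by ring
    · intro a ha
      obtain ⟨y, hy⟩ := h a ha
      exact hy.cauchySeq
  choose f hf using fun x => cauchySeq_tendsto_of_complete (hc x)
  refine ⟨continuousLinearMapOfTendsto (l := atTop) t (f := f) ?_, ?_⟩
  · rw [tendsto_pi_nhds]
    exact hf
  · intro x
    exact hf x

variable {S : Sys H} {F : Sub S}

lemma JT_Ω {T : H →L[ℂ] H} (hT : star T = T) (hTR : T ∈ F.RC) (hΩ : T S.Ω ∈ F.HF) :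
    S.J (T S.Ω) = T S.Ω := by
  rw [← sub_eq_zero, ← @inner_self_eq_zero ℂ]
  apply HF_orth F _ (Submodule.sub_mem _ (JHF F hΩ) hΩ)
  intro f hf
  rw [inner_sub_left, sub_eq_zero, J_inner', S.J_apply f (F.le f hf)]
  rw [← R_Ω S (star_mem (F.le f hf)), R_star, inner_star, RC_apply hTR hf, R_Ω S (F.le f hf),
    ← inner_star, hT]

lemma exists_seq {x : H} (hx : x ∈ F.HF) (hJ : S.J x = x) :
    ∃ f : ℕ → H →L[ℂ] H, (∀ n, f n ∈ F.F) ∧ (∀ n, star (f n) = f n) ∧
      Tendsto (fun n => f n S.Ω) atTop (𝓝 x) := by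
  rw [HF_eq] at hx
  have hx' : x ∈ closure (F.vecs : Set H) := hx
  rw [mem_closure_iff_seq_limit] at hx'
  obtain ⟨y, hy, hlim⟩ := hx'
  choose f hf hfy using hy
  refine ⟨fun n => (1 / 2 : ℂ) • (f n + star (f n)), ?_, ?_, ?_⟩
  · intro n
    exact F.F.toStarSubalgebra.smul_mem (add_mem (hf n) (star_mem (hf n))) _
  · intro n
    rw [star_smul, star_add, star_star, add_comm (star (f n))]
    congr 1
    simp
  · have h1 : (fun n => ((1 / 2 : ℂ) • (f n + star (f n))) S.Ω) =
        fun n => (1 / 2 : ℂ) • (y n + S.J (y n)) := by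
      funext n
      rw [← hfy n, S.J_apply _ (F.le _ (hf n))]
      rfl
    rw [h1]
    have h2 : x = (1 / 2 : ℂ) • (x + S.J x) := by
      rw [hJ, ← two_smul ℂ x, smul_smul]
      norm_num
    rw [h2]
    exact (hlim.add ((S.J.continuous.tendsto x).comp hlim)).const_smul _

/-- Key lemma: the resolvent on `H_F` of a selfadjoint operator commuting with the right
multiplications is the restriction of an element of `F`. -/
theorem res_lift {T r : H →L[ℂ] H} (hT : star T = T) (hTR : T ∈ F.RC)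
    (hTe : ∀ x ∈ F.HF, T x ∈ F.HF)
    (hr1 : r * (T - Complex.I • 1) = 1) (hr2 : (T - Complex.I • 1) * r = 1)
    (hrc : ∀ y : H →L[ℂ] H, y * T = T * y → y * r = r * y) :
    ∃ c ∈ F.F, ∀ x ∈ F.HF, c x = r x := by
  have hTΩ : T S.Ω ∈ F.HF := hTe _ (Ω_mem F)
  obtain ⟨f, hf, hfs, hlim⟩ := exists_seq hTΩ (JT_Ω hT hTR hTΩ)
  choose t ht1 ht2 ht3 ht4 using fun n => exists_res (hfs n)
  have htF : ∀ n, t n ∈ F.F := fun n => res_mem F.F (hf n) (ht4 n)
  -- commutation of `T`, `r` with `e_F`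
  have hTe' : F.e * T = T * F.e := comm_e F hTe (by rw [hT]; exact hTe)
  have hre : F.e * r = r * F.e := hrc _ hTe'
  have hrHF : ∀ x ∈ F.HF, r x ∈ F.HF := by
    intro x hx
    have h1 : r x = F.e (r x) := by
      have : F.e (r x) = r (F.e x) := congrArg (fun X : H →L[ℂ] H => X x) hre
      rw [this, e_self F hx]
    rw [h1]
    exact e_mem F _
  -- step 1
  have h1 : ∀ x ∈ F.HF, Tendsto (fun n => t n ((T - Complex.I • 1) x)) atTop (𝓝 x) := by
    have hdense : ∀ g ∈ F.F, Tendsto (fun n => t n ((T - Complex.I • 1) (g S.Ω))) atTop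
        (𝓝 (g S.Ω)) := by
      intro g hg
      rw [tendsto_iff_norm_sub_tendsto_zero]
      have hb : ∀ n, ‖t n ((T - Complex.I • 1) (g S.Ω)) - g S.Ω‖ ≤
          ‖S.R g‖ * ‖T S.Ω - f n S.Ω‖ := by
        intro n
        have e1 : g S.Ω = t n ((f n - Complex.I • 1) (g S.Ω)) := by
          have := congrArg (fun X : H →L[ℂ] H => X (g S.Ω)) (ht1 n)
          exact this.symm
        have e2 : t n ((T - Complex.I • 1) (g S.Ω)) - g S.Ω =
            t n (S.R g (T S.Ω - f n S.Ω)) := by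
          have e6 : t n ((T - Complex.I • 1) (g S.Ω)) - g S.Ω =
              t n ((T - Complex.I • 1) (g S.Ω) - (f n - Complex.I • 1) (g S.Ω)) := by
            rw [map_sub, ← e1]
          rw [e6]
          congr 1
          have e3 : T (g S.Ω) = S.R g (T S.Ω) := RC_vec hTR hg
          have e4 : (f n) (g S.Ω) = S.R g (f n S.Ω) :=
            RC_vec (RC_A (F.le _ (hf n))) hg
          rw [map_sub, ← e3, ← e4]
          simp
        rw [e2]
        exact (ht3 n _).trans ((S.R g).le_opNorm _)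
      refine squeeze_zero (fun n => norm_nonneg _) hb ?_
      have h2 : Tendsto (fun n => ‖T S.Ω - f n S.Ω‖) atTop (𝓝 0) := by
        have := (tendsto_const_nhds (x := T S.Ω)).sub hlim
        rw [sub_self] at this
        simpa using this.norm
      simpa using h2.const_mul ‖S.R g‖
    intro x hx
    -- density
    rw [Metric.tendsto_atTop]
    intro ε hε
    set K : ℝ := ‖(T - Complex.I • (1 : H →L[ℂ] H))‖ + 2 with hK
    have hKpos : 0 < K := by positivity
    rw [HF_eq] at hx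
    have hx' : x ∈ closure (F.vecs : Set H) := hx
    rw [Metric.mem_closure_iff] at hx'
    obtain ⟨_, ⟨g, hg, rfl⟩, hxg⟩ := hx' (ε / (2 * K)) (by positivity)
    have h3 := hdense g hg
    rw [Metric.tendsto_atTop] at h3
    obtain ⟨N, hN⟩ := h3 (ε / 2) (by positivity)
    refine ⟨N, fun n hn => ?_⟩
    have h4 := hN n hn
    rw [dist_eq_norm] at hxg h4 ⊢
    set y := g S.Ω
    have e5 : t n ((T - Complex.I • 1) x) - x =
        t n ((T - Complex.I • 1) (x - y)) - (x - y) + (t n ((T - Complex.I • 1) y) - y) := by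
      rw [map_sub, map_sub]
      abel
    rw [e5]
    calc ‖t n ((T - Complex.I • 1) (x - y)) - (x - y) + (t n ((T - Complex.I • 1) y) - y)‖
        ≤ ‖t n ((T - Complex.I • 1) (x - y))‖ + ‖x - y‖ + ‖t n ((T - Complex.I • 1) y) - y‖ :=
          (norm_add_le _ _).trans (by gcongr; exact norm_sub_le _ _)
      _ ≤ ‖(T - Complex.I • (1 : H →L[ℂ] H))‖ * ‖x - y‖ + ‖x - y‖ +
            ‖t n ((T - Complex.I • 1) y) - y‖ := by
          gcongr
          exact (ht3 n _).trans (ContinuousLinearMap.le_opNorm _ _)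
      _ = (K - 1) * ‖x - y‖ + ‖t n ((T - Complex.I • 1) y) - y‖ := by rw [hK]; ring
      _ ≤ K * ‖x - y‖ + ‖t n ((T - Complex.I • 1) y) - y‖ := by
          gcongr
          linarith
      _ < K * (ε / (2 * K)) + ε / 2 := by gcongr
      _ = ε := by field_simp; ring
  -- step 2
  have h2 : ∀ x ∈ F.HF, Tendsto (fun n => t n x) atTop (𝓝 (r x)) := by
    intro x hx
    have := h1 (r x) (hrHF x hx)
    have e1 : (T - Complex.I • 1) (r x) = x := congrArg (fun X : H →L[ℂ] H => X x) hr2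
    rwa [e1] at this
  -- step 3
  obtain ⟨c, hc⟩ := exists_lim S ht3 (fun a ha => by
    refine ⟨S.R a (r S.Ω), ?_⟩
    have e1 : (fun n => t n (a S.Ω)) = fun n => S.R a (t n S.Ω) := by
      funext n
      have e2 : S.R a (t n S.Ω) = t n (S.R a S.Ω) :=
        congrArg (fun X : H →L[ℂ] H => X S.Ω) (R_comm S (F.le _ (htF n)) ha)
      rw [e2, R_Ω S ha]
    rw [e1]
    exact ((S.R a).continuous.tendsto _).comp (h2 _ (Ω_mem F)))
  refine ⟨c, sot_closed F.F htF hc, ?_⟩
  intro x hx
  exact tendsto_nhds_unique (hc x) (h2 x hx)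

end Pool.Agent.N303.IE
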