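import Mathlib
import Pool.Agent.N303.IE.C

/-!
# Part D: the corner, membership in `F`, the basic construction and polar decompositions
-/

set_option autoImplicit false
set_option linter.unusedSectionVars false
set_option linter.unusedVariables false

open scoped InnerProductSpace ENNReal NNReal Topology
open Filter

namespace Pool.Agent.N303.IE

universe u

variable {H : Type u} [NormedAddCommGroup H] [InnerProductSpace ℂ H] [CompleteSpace H]
variable {S : Sys H} {F : Sub S}

/-- operators of `A` that agree on `Ω` are equal -/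
lemma eq_of_Ω {a b : H →L[ℂ] H} (ha : a ∈ S.A) (hb : b ∈ S.A) (h : a S.Ω = b S.Ω) : a = b := by
  rw [← sub_eq_zero]
  exact S.separating _ (sub_mem ha hb) (by simp [h])

/-- the corner -/
theorem corner {T : H →L[ℂ] H} (hT : star T = T) (hTT : T * T = T) (hTR : T ∈ F.RC)
    (hTe : T * F.e = T) : ∃ p ∈ F.F, star p = p ∧ p * p = p ∧ p * F.e = T := by
  have heT : F.e * T = T := by
    have := congrArg star hTe
    rwa [star_mul, e_star, hT] at this
  have hmem : ∀ x, T x ∈ F.HF := by
    intro x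
    have : F.e (T x) = T x := congrArg (fun X : H →L[ℂ] H => X x) heT
    rw [← this]
    exact e_mem F _
  obtain ⟨r, hr1, hr2, -, hr4⟩ := exists_res hT
  obtain ⟨c, hc, hcx⟩ := res_lift hT hTR (fun x _ => hmem x) hr1 hr2 hr4
  -- r = (1 - i)/2 T + i
  have hr : r = ((1 - Complex.I) / 2) • T + Complex.I • 1 := by
    have h1 : (T - Complex.I • 1) * (((1 - Complex.I) / 2) • T + Complex.I • 1) = 1 := by
      rw [sub_mul, mul_add, mul_add, mul_smul_comm, hTT, smul_mul_assoc, smul_mul_assoc,
        mul_smul_comm, mul_one, one_mul, one_mul, smul_smul, smul_smul, Complex.I_mul_I]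
      have e1 : Complex.I * ((1 - Complex.I) / 2) = (1 + Complex.I) / 2 := by
        have := Complex.I_mul_I
        linear_combination (-1 / 2) * this
      rw [e1]
      module
    calc r = r * ((T - Complex.I • 1) * (((1 - Complex.I) / 2) • T + Complex.I • 1)) := by
          rw [h1, mul_one]
      _ = _ := by rw [← mul_assoc, hr1, one_mul]
  set p : H →L[ℂ] H := (1 + Complex.I) • (c - Complex.I • 1) with hp
  have hpF : p ∈ F.F := by
    apply F.F.toStarSubalgebra.smul_mem
    exact sub_mem hc (F.F.toStarSubalgebra.smul_mem (one_mem _) _)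
  have hpx : ∀ x ∈ F.HF, p x = T x := by
    intro x hx
    have h1 : p x = (1 + Complex.I) • (c x - Complex.I • x) := by simp [hp]
    rw [h1, hcx x hx, hr]
    have h2 : (((1 - Complex.I) / 2) • T + Complex.I • (1 : H →L[ℂ] H)) x =
      ((1 - Complex.I) / 2) • T x + Complex.I • x := by simp
    rw [h2, add_sub_cancel_right, smul_smul]
    have h3 : (1 + Complex.I) * ((1 - Complex.I) / 2) = 1 := by
      have := Complex.I_mul_I
      linear_combination (-1 / 2) * this
    rw [h3, one_smul]
  have hpe : p * F.e = T := by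
    rw [← hTe]
    ext x
    exact hpx _ (e_mem F x)
  refine ⟨p, hpF, ?_, ?_, hpe⟩
  · apply eq_of_Ω (star_mem (F.le p hpF)) (F.le p hpF)
    have h1 : star p * F.e = T := by
      have h2 := congrArg star hpe
      rw [star_mul, e_star, hT] at h2
      rw [← L_e F (star_mem hpF), h2]
    have h3 := congrArg (fun X : H →L[ℂ] H => X S.Ω) (h1.trans hpe.symm)
    have h4 : F.e S.Ω = S.Ω := e_self F (Ω_mem F)
    simpa [h4] using h3
  · apply eq_of_Ω (F.le _ (mul_mem hpF hpF)) (F.le p hpF)
    show p (p S.Ω) = p S.Ω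
    rw [hpx _ (Ω_mem F), hpx _ (hmem _)]
    exact congrArg (fun X : H →L[ℂ] H => X S.Ω) hTT

/-- an element `a` of `A` with `a Ω ∈ H_F` belongs to `F` (selfadjoint case) -/
lemma mem_of_vec_sa {a : H →L[ℂ] H} (ha : a ∈ S.A) (hsa : star a = a) (h : a S.Ω ∈ F.HF) :
    a ∈ F.F := by
  obtain ⟨r, hr1, hr2, -, hr4⟩ := exists_res hsa
  have hae : ∀ x ∈ F.HF, a x ∈ F.HF := by
    intro x hx
    refine HF_ind F (P := fun x => a x ∈ F.HF) ((HF_closed F).preimage a.continuous) ?_ hx
    intro g hg
    rw [RC_vec (RC_A ha) hg]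
    exact RHF F hg h
  obtain ⟨c, hc, hcx⟩ := res_lift hsa (RC_A ha) hae hr1 hr2 hr4
  have hrA : r ∈ S.A := res_mem S.A ha hr4
  have hcr : c = r := eq_of_Ω (F.le c hc) hrA (hcx _ (Ω_mem F))
  have hrF : r ∈ F.F := hcr ▸ hc
  have : a ∈ Set.centralizer (Set.centralizer (F.F : Set (H →L[ℂ] H))) := by
    intro y hy
    have h1 : r * y = y * r := hy r hrF
    have h2 : y * (a - Complex.I • 1) = (a - Complex.I • 1) * y := by
      calc y * (a - Complex.I • 1)
          = (a - Complex.I • 1) * (r * y) * (a - Complex.I • 1) := by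
            rw [← mul_assoc (a - Complex.I • 1), hr2, one_mul]
        _ = (a - Complex.I • 1) * y * (r * (a - Complex.I • 1)) := by
            rw [h1, mul_assoc, mul_assoc, mul_assoc]
        _ = (a - Complex.I • 1) * y := by rw [hr1, mul_one]
    rw [mul_sub, sub_mul, mul_smul_comm, smul_mul_assoc, mul_one, one_mul] at h2
    exact sub_left_injective h2
  rw [VonNeumannAlgebra.centralizer_centralizer] at this
  exact this

theorem mem_of_vec {a : H →L[ℂ] H} (ha : a ∈ S.A) (h : a S.Ω ∈ F.HF) : a ∈ F.F := by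
  have h' : (star a) S.Ω ∈ F.HF := by
    rw [← S.J_apply a ha]
    exact JHF F h
  have h1 : a + star a ∈ F.F := by
    apply mem_of_vec_sa (add_mem ha (star_mem ha))
    · rw [star_add, star_star, add_comm]
    · exact Submodule.add_mem _ h h'
  have h2 : Complex.I • (a - star a) ∈ F.F := by
    apply mem_of_vec_sa (S.A.toStarSubalgebra.smul_mem (sub_mem ha (star_mem ha)) _)
    · rw [star_smul, star_sub, star_star]
      have : star Complex.I = -Complex.I := by simp
      rw [this, neg_smul, ← smul_neg, neg_sub]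
    · exact Submodule.smul_mem _ _ (Submodule.sub_mem _ h h')
  have h3 : a = (1 / 2 : ℂ) • (a + star a) + (-(Complex.I) / 2) • (Complex.I • (a - star a)) := by
    rw [smul_smul]
    have e1 : -Complex.I / 2 * Complex.I = 1 / 2 := by
      have := Complex.I_mul_I
      linear_combination (-1 / 2) * this
    rw [e1]
    module
  rw [h3]
  exact add_mem (F.F.toStarSubalgebra.smul_mem h1 _) (F.F.toStarSubalgebra.smul_mem h2 _)

/-- the basic construction is the commutant of the right multiplications by `F` -/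
theorem basic_eq : F.basic = F.RC := by
  apply Set.Subset.antisymm
  · intro T hT f hf
    apply hT
    intro x hx
    rcases hx with hx | hx
    · exact (R_comm S hx (F.le f hf)).symm
    · rw [Set.mem_singleton_iff] at hx
      rw [hx, R_e F hf]
  · intro T hT y hy
    have hyA : ∀ a ∈ S.A, a * y = y * a := fun a ha => hy a (Or.inl ha)
    have hye : F.e * y = y * F.e := hy _ (Or.inr rfl)
    obtain ⟨a, ha, rfl⟩ := commutation S hyA
    have haF : a ∈ F.F := by
      apply mem_of_vec ha
      have h1 : F.e (S.R a S.Ω) = S.R a (F.e S.Ω) :=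
        congrArg (fun X : H →L[ℂ] H => X S.Ω) hye
      rw [e_self F (Ω_mem F), R_Ω S ha] at h1
      rw [← h1]
      exact e_mem F _
    exact hT a haF

lemma basic_closed_comm {T v : H →L[ℂ] H} (hT : T ∈ F.RC)
    (h : ∀ y : H →L[ℂ] H, y * T = T * y → y * star T = star T * y → y * v = v * y) :
    v ∈ F.RC := by
  intro f hf
  exact h _ (hT f hf) (RC_star hT f hf)

lemma norm_eq_of (x a : H →L[ℂ] H) (ha : star a = a) (haa : a * a = star x * x) (ξ : H) :
    ‖a ξ‖ = ‖x ξ‖ := by
  have h1 : ⟪a ξ, a ξ⟫_ℂ = ⟪x ξ, x ξ⟫_ℂ := by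
    rw [← inner_star a, ← inner_star x, ha]
    have : a (a ξ) = star x (x ξ) := by
      have := congrArg (fun T : H →L[ℂ] H => T ξ) haa
      simpa using this
    rw [this]
  rw [inner_self_eq_norm_sq_to_K, inner_self_eq_norm_sq_to_K] at h1
  have h2 : ‖a ξ‖ ^ 2 = ‖x ξ‖ ^ 2 := by exact_mod_cast h1
  exact (sq_eq_sq₀ (norm_nonneg _) (norm_nonneg _)).1 h2

/-- Polar decomposition: `v` is a partial isometry with final projection onto the closure of the
range of `x` and with the kernel of `x`, and commutes with whatever commutes with `x`, `x*`. -/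
theorem exists_polar (x : H →L[ℂ] H) : ∃ v : H →L[ℂ] H,
    v * star v = proj (LinearMap.range (x : H →ₗ[ℂ] H)) ∧ v * star v * v = v ∧
      (∀ ζ, x ζ = 0 → v ζ = 0) ∧ (∀ ζ, v ζ = 0 → x ζ = 0) ∧
      ∀ y : H →L[ℂ] H, y * x = x * y → y * star x = star x * y → y * v = v * y := by
  set a : H →L[ℂ] H := CFC.abs x with haDef
  have ha : star a = a := (CFC.abs_nonneg x).isSelfAdjoint.star_eq
  have haa : a * a = star x * x := CFC.abs_mul_abs x
  have hn : ∀ ξ, ‖a ξ‖ = ‖x ξ‖ := norm_eq_of x a ha haa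
  have hcomm : ∀ y : H →L[ℂ] H, y * x = x * y → y * star x = star x * y → a * y = y * a := by
    intro y h1 h2
    have h3 : Commute (star x * x) y := by
      have e1 : star x * x * y = y * (star x * x) := by
        rw [mul_assoc, ← h1, ← mul_assoc, ← h2, mul_assoc]
      exact e1
    exact (Commute.cfcₙ_nnreal h3 _ : Commute (CFC.abs x) y)
  set K : Submodule ℂ H := (LinearMap.range (a : H →ₗ[ℂ] H)).topologicalClosure with hK
  have hKc : IsClosed (K : Set H) := Submodule.isClosed_topologicalClosure _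
  have : CompleteSpace K := hKc.completeSpace_coe
  have hmem : ∀ ξ, a ξ ∈ K := fun ξ => Submodule.le_topologicalClosure _ ⟨ξ, rfl⟩
  let e : H →ₗ[ℂ] K := (a : H →ₗ[ℂ] H).codRestrict K hmem
  have hde : DenseRange e := by
    intro k
    rw [Metric.mem_closure_iff]
    intro ε hε
    have hk : (k : H) ∈ closure (LinearMap.range (a : H →ₗ[ℂ] H) : Set H) := k.2
    rw [Metric.mem_closure_iff] at hk
    obtain ⟨_, ⟨ξ, rfl⟩, hξ⟩ := hk ε hε
    exact ⟨e ξ, ⟨ξ, rfl⟩, hξ⟩
  have hne : ∀ ξ, ‖(x : H →ₗ[ℂ] H) ξ‖ ≤ 1 * ‖e ξ‖ := by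
    intro ξ
    rw [one_mul]
    exact (hn ξ).ge
  let V : K →L[ℂ] H := (x : H →ₗ[ℂ] H).extendOfNorm e
  have hV : ∀ ξ, V (e ξ) = x ξ := fun ξ => LinearMap.extendOfNorm_eq hde ⟨1, hne⟩ ξ
  have hVn : ∀ k : K, ‖V k‖ = ‖k‖ := by
    intro k
    refine hde.induction (P := fun k => ‖V k‖ = ‖k‖) ?_ (isClosed_eq (by fun_prop) (by fun_prop)) k
    rintro _ ⟨ξ, rfl⟩
    rw [hV]
    exact (hn ξ).symm
  let Vi : K →ₗᵢ[ℂ] H := ⟨(V : K →ₗ[ℂ] H), hVn⟩
  have hVi : ∀ k l : K, ⟪V k, V l⟫_ℂ = ⟪k, l⟫_ℂ := fun k l => Vi.inner_map_map k l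
  let v : H →L[ℂ] H := V ∘L K.orthogonalProjectionOnto
  have hv : ∀ ξ, v ξ = V (K.orthogonalProjectionOnto ξ) := fun ξ => rfl
  have hvK : ∀ k : K, v k = V k := by
    intro k
    rw [hv, Submodule.orthogonalProjectionOnto_mem_subspace_eq_self]
  have hva : ∀ ξ, v (a ξ) = x ξ := by
    intro ξ
    have : v (e ξ) = V (e ξ) := hvK _
    rw [hV] at this
    exact this
  have hker : ∀ ζ, a ζ = 0 → ζ ∈ Kᗮ := by
    intro ζ hζ
    rw [hK, Submodule.orthogonal_closure, Submodule.mem_orthogonal]
    rintro _ ⟨ξ, rfl⟩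
    show ⟪a ξ, ζ⟫_ℂ = 0
    rw [← inner_star', ha, hζ, inner_zero_right]
  have hker' : ∀ ζ, ζ ∈ Kᗮ → a ζ = 0 := by
    intro ζ hζ
    rw [Submodule.mem_orthogonal] at hζ
    have := hζ (a (a ζ)) (hmem _)
    rw [← inner_star', ha] at this
    exact inner_self_eq_zero.1 this
  have hxa : ∀ ζ, x ζ = 0 ↔ a ζ = 0 := by
    intro ζ
    rw [← norm_eq_zero, ← hn, norm_eq_zero]
  have huniq : ∀ b c : H →L[ℂ] H, (∀ ξ, b (a ξ) = c (a ξ)) → (∀ ζ, a ζ = 0 → b ζ = c ζ) →
      b = c := by
    intro b c h1 h2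
    ext ξ
    have hK1 : ∀ k : K, b k = c k := by
      intro k
      refine hde.induction (P := fun k => b k = c k) ?_
        (isClosed_eq (by fun_prop) (by fun_prop)) k
      rintro _ ⟨η, rfl⟩
      exact h1 η
    have hK2 : b (ξ - K.starProjection ξ) = c (ξ - K.starProjection ξ) :=
      h2 _ (hker' _ (Submodule.sub_starProjection_mem_orthogonal ξ))
    have hK3 := hK1 (K.orthogonalProjectionOnto ξ)
    have hK4 : ((K.orthogonalProjectionOnto ξ : K) : H) = K.starProjection ξ := rfl
    rw [hK4] at hK3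
    rw [map_sub, map_sub, hK3] at hK2
    exact sub_left_injective hK2
  have hsv : ∀ ξ, (star v) (v ξ) = K.orthogonalProjectionOnto ξ := by
    intro ξ
    refine ext_inner_right ℂ fun η => ?_
    rw [inner_star, hv, hv, hVi, Submodule.inner_orthogonalProjectionOnto_eq_of_mem_left]
  have hvvv : v * star v * v = v := by
    ext ξ
    show v (star v (v ξ)) = v ξ
    rw [hsv, hvK, hv]
  have hv0 : ∀ ζ, a ζ = 0 → v ζ = 0 := by
    intro ζ hζ
    have := hker ζ hζ
    rw [hv, Submodule.orthogonalProjectionOnto_eq_zero_iff.2 this, map_zero]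
  refine ⟨v, ?_, hvvv, ?_, ?_, ?_⟩
  · -- final projection
    ext ξ
    symm
    apply proj_unique
    · -- range of v in the closure of the range of x
      have hr : ∀ k : K, V k ∈ (LinearMap.range (x : H →ₗ[ℂ] H)).topologicalClosure := by
        intro k
        refine hde.induction
          (P := fun k => V k ∈ (LinearMap.range (x : H →ₗ[ℂ] H)).topologicalClosure) ?_
          ((Submodule.isClosed_topologicalClosure _).preimage V.continuous) k
        rintro _ ⟨η, rfl⟩
        show V (e η) ∈ _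
        rw [hV]
        exact Submodule.le_topologicalClosure _ ⟨η, rfl⟩
      exact hr _
    · rintro _ ⟨η, rfl⟩
      show ⟪ξ - v (star v ξ), x η⟫_ℂ = 0
      rw [← hva η, ← inner_star, map_sub]
      have : (star v) (v ((star v) ξ)) = (star v) ξ := by
        have := congrArg star hvvv
        rw [star_mul, star_mul, star_star] at this
        exact congrArg (fun X : H →L[ℂ] H => X ξ) this
      rw [this, sub_self, inner_zero_left]
  · intro ζ hζ
    exact hv0 ζ ((hxa ζ).1 hζ)
  · intro ζ hζ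
    rw [hxa]
    apply hker'
    have h1 := hsv ζ
    rw [hζ, map_zero] at h1
    rw [← Submodule.orthogonalProjectionOnto_eq_zero_iff (K := K)]
    exact Subtype.ext h1.symm
  · intro y h1 h2
    have h3 := hcomm y h1 h2
    have h3' : ∀ ξ, a (y ξ) = y (a ξ) := fun ξ => congrArg (fun T : H →L[ℂ] H => T ξ) h3
    symm
    refine huniq _ _ ?_ ?_
    · intro ξ
      show v (y (a ξ)) = y (v (a ξ))
      rw [← h3', hva, hva]
      exact (congrArg (fun T : H →L[ℂ] H => T ξ) h1).symm
    · intro ζ hζ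
      show v (y ζ) = y (v ζ)
      rw [hv0 ζ hζ, map_zero, hv0]
      rw [h3', hζ, map_zero]

end Pool.Agent.N303.IE
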