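import Mathlib
import Pool.Agent.N303.IE.D

/-!
# Part E: cyclic modules
-/

set_option autoImplicit false
set_option linter.unusedSectionVars false
set_option linter.unusedVariables false

open scoped InnerProductSpace ENNReal NNReal Topology
open Filter

namespace Pool.Agent.N303.IE

universe u

variable {H : Type u} [NormedAddCommGroup H] [InnerProductSpace ℂ H] [CompleteSpace H]
variable {S : Sys H} {F : Sub S}

lemma R_add (f g : H →L[ℂ] H) : S.R (f + g) = S.R f + S.R g := by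
  ext x
  simp [R_apply]

lemma R_smul (c : ℂ) (f : H →L[ℂ] H) : S.R (c • f) = c • S.R f := by
  ext x
  show S.J ((star (c • f)) (S.J x)) = c • S.J ((star f) (S.J x))
  rw [star_smul]
  show S.J ((star c) • (star f) (S.J x)) = c • S.J ((star f) (S.J x))
  rw [map_smulₛₗ]
  simp

lemma R_zero : S.R 0 = 0 := by
  ext x
  simp [R_apply]

/-- the vectors `R_f v` -/
def cyc (F : Sub S) (v : H) : Submodule ℂ H where
  carrier := {x : H | ∃ f ∈ F.F, S.R f v = x}
  zero_mem' := ⟨0, zero_mem _, by rw [R_zero]; rfl⟩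
  add_mem' := by
    rintro _ _ ⟨f, hf, rfl⟩ ⟨g, hg, rfl⟩
    exact ⟨f + g, add_mem hf hg, by rw [R_add]; rfl⟩
  smul_mem' := by
    rintro c _ ⟨f, hf, rfl⟩
    exact ⟨c • f, F.F.toStarSubalgebra.smul_mem hf c, by rw [R_smul]; rfl⟩

lemma mem_cyc {f : H →L[ℂ] H} (hf : f ∈ F.F) (v : H) : S.R f v ∈ cyc F v := ⟨f, hf, rfl⟩

lemma self_mem_cyc (v : H) : v ∈ cyc F v := ⟨1, one_mem _, by rw [R_one]; rfl⟩

/-- `V` is invariant under the right action of `F`. -/
def RInv (F : Sub S) (V : Submodule ℂ H) : Prop := ∀ f ∈ F.F, ∀ v ∈ V, S.R f v ∈ V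

lemma cyc_inv (v : H) : RInv F (cyc F v) := by
  rintro g hg _ ⟨f, hf, rfl⟩
  refine ⟨f * g, mul_mem hf hg, ?_⟩
  rw [← R_mul]
  rfl

lemma cyc_le {V : Submodule ℂ H} (hV : RInv F V) {v : H} (hv : v ∈ V) : cyc F v ≤ V := by
  rintro _ ⟨f, hf, rfl⟩
  exact hV f hf v hv

lemma clos_inv {V : Submodule ℂ H} (hV : RInv F V) : RInv F V.topologicalClosure := by
  intro f hf v hv
  have h2 : closure (V : Set H) ⊆ {y | S.R f y ∈ V.topologicalClosure} := by
    apply closure_minimal
    · intro w hw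
      exact Submodule.le_topologicalClosure _ (hV f hf w hw)
    · exact (Submodule.isClosed_topologicalClosure V).preimage (S.R f).continuous
  exact h2 hv

lemma sup_inv {ι : Sort*} {V : ι → Submodule ℂ H} (hV : ∀ i, RInv F (V i)) :
    RInv F (⨆ i, V i) := by
  intro f hf v hv
  have : (⨆ i, V i) ≤ (⨆ i, V i).comap (S.R f : H →ₗ[ℂ] H) := by
    apply iSup_le
    intro i x hx
    exact Submodule.mem_iSup_of_mem i (hV i f hf x hx)
  exact this hv

lemma sup_inv' {V W : Submodule ℂ H} (hV : RInv F V) (hW : RInv F W) : RInv F (V ⊔ W) := by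
  intro f hf v hv
  have : V ⊔ W ≤ (V ⊔ W).comap (S.R f : H →ₗ[ℂ] H) := by
    apply sup_le
    · intro x hx
      exact Submodule.mem_sup_left (hV f hf x hx)
    · intro x hx
      exact Submodule.mem_sup_right (hW f hf x hx)
  exact this hv

lemma proj_RC {V : Submodule ℂ H} (hV : RInv F V) : proj V ∈ F.RC := by
  intro f hf
  symm
  apply proj_comm
  · intro v hv
    exact Submodule.le_topologicalClosure _ (hV f hf v hv)
  · intro v hv
    rw [← R_star]
    exact Submodule.le_topologicalClosure _ (hV _ (star_mem hf) v hv)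

/-- adding a cyclic module -/
lemma proj_sup {W : Submodule ℂ H} (hW : RInv F W) (v : H) :
    proj (W ⊔ cyc F v) = proj W + proj (cyc F (v - proj W v)) := by
  set u := v - proj W v with hu
  have hPR : ∀ f ∈ F.F, ∀ x, S.R f (proj W x) = proj W (S.R f x) := fun f hf x =>
    RC_apply (proj_RC hW) hf x
  have hRu : ∀ f ∈ F.F, S.R f u = S.R f v - proj W (S.R f v) := by
    intro f hf
    rw [hu, map_sub, hPR f hf]
  have huW : ∀ x ∈ cyc F u, ∀ w ∈ W, ⟪x, w⟫_ℂ = 0 := by
    rintro _ ⟨f, hf, rfl⟩ w hw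
    rw [hRu f hf]
    exact proj_inner' W _ hw
  ext ξ
  apply proj_unique
  · show proj W ξ + proj (cyc F u) ξ ∈ _
    apply Submodule.add_mem
    · exact Submodule.topologicalClosure_mono le_sup_left (proj_mem W ξ)
    · have h1 : (cyc F u).topologicalClosure ≤ (W ⊔ cyc F v).topologicalClosure := by
        apply Submodule.topologicalClosure_minimal _ _ (Submodule.isClosed_topologicalClosure _)
        rintro _ ⟨f, hf, rfl⟩
        rw [hRu f hf]
        apply Submodule.sub_mem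
        · exact Submodule.le_topologicalClosure _ (Submodule.mem_sup_right (mem_cyc hf v))
        · exact Submodule.topologicalClosure_mono le_sup_left (proj_mem W _)
      exact h1 (proj_mem _ ξ)
  · intro w hw
    have hPu : ∀ w ∈ W, ⟪proj (cyc F u) ξ, w⟫_ℂ = 0 := by
      intro w hw
      rw [proj_symm]
      have : proj (cyc F u) w = 0 := by
        apply proj_zero
        intro x hx
        rw [← inner_conj_symm, huW x hx w hw, map_zero]
      rw [this, inner_zero_right]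
    have hPu' : ∀ w ∈ W.topologicalClosure, ⟪proj (cyc F u) ξ, w⟫_ℂ = 0 :=
      fun w hw => inner_clos hPu hw
    have e1 : ξ - (proj W + proj (cyc F u)) ξ = ξ - proj W ξ - proj (cyc F u) ξ := by
      show ξ - (proj W ξ + proj (cyc F u) ξ) = _
      abel
    rw [e1]
    have hW' : ∀ w ∈ W.topologicalClosure, ⟪ξ - proj W ξ - proj (cyc F u) ξ, w⟫_ℂ = 0 := by
      intro w hw
      rw [inner_sub_left, proj_inner W ξ hw, hPu' w hw, sub_zero]
    obtain ⟨a, ha, b, ⟨f, hf, rfl⟩, rfl⟩ := Submodule.mem_sup.1 hw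
    rw [inner_add_right, hW' a (Submodule.le_topologicalClosure _ ha), zero_add]
    have e2 : S.R f v = proj W (S.R f v) + S.R f u := by
      rw [hRu f hf]
      abel
    rw [e2, inner_add_right, hW' _ (proj_mem W _), zero_add]
    have e3 : ξ - proj W ξ - proj (cyc F u) ξ = (ξ - proj (cyc F u) ξ) - proj W ξ := by abel
    rw [e3, inner_sub_left, proj_inner' (cyc F u) ξ (mem_cyc hf u), zero_sub, neg_eq_zero,
      ← inner_conj_symm]
    have h4 : ⟪S.R f u, proj W ξ⟫_ℂ = 0 :=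
      inner_clos (fun w hw => huW _ (mem_cyc hf u) w hw) (proj_mem W ξ)
    rw [h4, map_zero]

variable (τ : BTrace F)

lemma tr_add {x y : H →L[ℂ] H} (hx : x ∈ F.RC) (hy : y ∈ F.RC) (h0 : 0 ≤ x) (h1 : 0 ≤ y) :
    τ.tr (x + y) = τ.tr x + τ.tr y := by
  rw [← basic_eq] at hx hy
  exact τ.add x hx y hy h0 h1

lemma tr_mono {x y : H →L[ℂ] H} (hx : x ∈ F.RC) (hy : y ∈ F.RC) (h0 : 0 ≤ x) (h : x ≤ y) :
    τ.tr x ≤ τ.tr y := by
  have h1 : y = x + (y - x) := by abel
  rw [h1, tr_add τ hx (RC_sub hy hx) h0 (sub_nonneg.2 h)]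
  exact le_self_add

lemma tr_proj {p : H →L[ℂ] H} (hp : p ∈ F.F) (hs : star p = p) (hi : p * p = p) :
    τ.tr (p * F.e) = ENNReal.ofReal (S.mu p).re := by
  have h := τ.formula p (F.le p hp)
  rw [hs, mul_assoc, L_e F hp, ← mul_assoc, hi] at h
  exact h

section graph

open WithLp

variable {p : H →L[ℂ] H} {u : H}

/-- the graph -/
noncomputable def gr (F : Sub S) (p : H →L[ℂ] H) (u : H) : Submodule ℂ (WithLp 2 (H × H)) where
  carrier := {x | ∃ g ∈ F.F, toLp 2 (S.R g (p S.Ω), S.R g u) = x}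
  zero_mem' := ⟨0, zero_mem _, by rw [R_zero]; rfl⟩
  add_mem' := by
    rintro _ _ ⟨f, hf, rfl⟩ ⟨g, hg, rfl⟩
    exact ⟨f + g, add_mem hf hg, by rw [R_add]; rfl⟩
  smul_mem' := by
    rintro c _ ⟨f, hf, rfl⟩
    exact ⟨c • f, F.F.toStarSubalgebra.smul_mem hf c, by rw [R_smul]; rfl⟩

lemma gr_mem {g : H →L[ℂ] H} (hg : g ∈ F.F) :
    (toLp 2 (S.R g (p S.Ω), S.R g u) : WithLp 2 (H × H)) ∈ gr F p u := ⟨g, hg, rfl⟩

/-- the diagonal action -/
noncomputable def dg (T : H →L[ℂ] H) : WithLp 2 (H × H) →L[ℂ] WithLp 2 (H × H) :=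
  ((WithLp.prodContinuousLinearEquiv 2 ℂ H H).symm : H × H →L[ℂ] WithLp 2 (H × H)).comp
    ((T.prodMap T).comp (WithLp.prodContinuousLinearEquiv 2 ℂ H H : WithLp 2 (H × H) →L[ℂ] H × H))

lemma dg_apply (T : H →L[ℂ] H) (x : WithLp 2 (H × H)) :
    dg T x = toLp 2 (T (ofLp x).1, T (ofLp x).2) := rfl

/-- the inclusion of the first coordinate -/
noncomputable def in1 : H →L[ℂ] WithLp 2 (H × H) :=
  ((WithLp.prodContinuousLinearEquiv 2 ℂ H H).symm : H × H →L[ℂ] WithLp 2 (H × H)).comp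
    (ContinuousLinearMap.inl ℂ H H)

/-- the second coordinate -/
noncomputable def pr2 : WithLp 2 (H × H) →L[ℂ] H :=
  (ContinuousLinearMap.snd ℂ H H).comp
    (WithLp.prodContinuousLinearEquiv 2 ℂ H H : WithLp 2 (H × H) →L[ℂ] H × H)

lemma in1_apply (x : H) : in1 x = toLp 2 (x, (0 : H)) := rfl

lemma pr2_apply (x : WithLp 2 (H × H)) : pr2 x = (ofLp x).2 := rfl

lemma inner2 (x y : WithLp 2 (H × H)) :
    ⟪x, y⟫_ℂ = ⟪(ofLp x).1, (ofLp y).1⟫_ℂ + ⟪(ofLp x).2, (ofLp y).2⟫_ℂ := rfl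

/-- the off-diagonal entry of the projection onto the graph -/
noncomputable def off (F : Sub S) (p : H →L[ℂ] H) (u : H) : H →L[ℂ] H :=
  pr2.comp ((proj (gr F p u)).comp in1)

lemma off_apply (ξ : H) : off F p u ξ = (ofLp (proj (gr F p u) (toLp 2 (ξ, (0 : H))))).2 := rfl

lemma gr_rel (hp : p ∈ F.F) (hs : star p = p) (hu : S.R p u = u) {a : H →L[ℂ] H} (ha : a ∈ S.A)
    {x : WithLp 2 (H × H)} (hx : x ∈ (gr F p u).topologicalClosure) :
    ⟪a S.Ω, (ofLp x).2⟫_ℂ = ⟪S.J (ofLp x).1, (star a) u⟫_ℂ := by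
  have hc : Continuous (fun x : WithLp 2 (H × H) => ofLp x) :=
    (WithLp.prodContinuousLinearEquiv 2 ℂ H H).continuous
  have h2 : closure (gr F p u : Set (WithLp 2 (H × H))) ⊆
      {x | ⟪a S.Ω, (ofLp x).2⟫_ℂ = ⟪S.J (ofLp x).1, (star a) u⟫_ℂ} := by
    apply closure_minimal
    · rintro _ ⟨g, hg, rfl⟩
      show ⟪a S.Ω, S.R g u⟫_ℂ = ⟪S.J (S.R g (p S.Ω)), (star a) u⟫_ℂ
      have hgA := F.le g hg
      have hpA := F.le p hp
      have e1 : ⟪a S.Ω, S.R g u⟫_ℂ = ⟪(a * star g) S.Ω, u⟫_ℂ := by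
        rw [← inner_star, ← R_star, R_vec S ha (star_mem hgA)]
      have e2 : S.J (S.R g (p S.Ω)) = (star g * p) S.Ω := by
        rw [R_vec S hpA hgA, S.J_apply _ (mul_mem hpA hgA), star_mul, hs]
      have e3 : (a * star g) S.Ω = (a * star g) S.Ω := rfl
      have e4 : ⟪(a * star g) S.Ω, u⟫_ℂ = ⟪(a * star g * p) S.Ω, u⟫_ℂ := by
        conv_lhs => rw [← hu]
        rw [← inner_star, ← R_star, hs, R_vec S (mul_mem ha (star_mem hgA)) hpA]
      rw [e1, e4, e2, inner_star', mul_assoc]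
      rfl
    · apply isClosed_eq
      · exact continuous_const.inner (continuous_snd.comp hc)
      · exact (S.J.continuous.comp (continuous_fst.comp hc)).inner continuous_const
  exact h2 hx

lemma gr_inv {g : H →L[ℂ] H} (hg : g ∈ F.F) {x : WithLp 2 (H × H)}
    (hx : x ∈ (gr F p u).topologicalClosure) : dg (S.R g) x ∈ (gr F p u).topologicalClosure := by
  have h2 : closure (gr F p u : Set (WithLp 2 (H × H))) ⊆
      {x | dg (S.R g) x ∈ (gr F p u).topologicalClosure} := by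
    apply closure_minimal
    · rintro _ ⟨f, hf, rfl⟩
      apply Submodule.le_topologicalClosure
      refine ⟨f * g, mul_mem hf hg, ?_⟩
      rw [← R_mul]
      rfl
    · exact (Submodule.isClosed_topologicalClosure _).preimage (dg (S.R g)).continuous
  exact h2 hx

lemma off_RC : off F p u ∈ F.RC := by
  intro g hg
  ext ξ
  show S.R g (off F p u ξ) = off F p u (S.R g ξ)
  rw [off_apply, off_apply]
  have h1 : proj (gr F p u) (toLp 2 (S.R g ξ, (0 : H))) =
      dg (S.R g) (proj (gr F p u) (toLp 2 (ξ, (0 : H)))) := by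
    apply proj_unique
    · exact gr_inv hg (proj_mem _ _)
    · rintro _ ⟨f, hf, rfl⟩
      have h2 := proj_inner' (gr F p u) (toLp 2 (ξ, (0 : H)))
        (gr_mem (F := F) (p := p) (u := u) (mul_mem hf (star_mem hg)))
      rw [← R_mul, R_star] at h2
      rw [inner2] at h2 ⊢
      rw [← h2]
      congr 1
      · show ⟪S.R g ξ - S.R g _, S.R f (p S.Ω)⟫_ℂ = ⟪ξ - _, (star (S.R g)) (S.R f (p S.Ω))⟫_ℂ
        rw [inner_star', map_sub]
        rfl
      · show ⟪(0 : H) - S.R g _, S.R f u⟫_ℂ = ⟪(0 : H) - _, (star (S.R g)) (S.R f u)⟫_ℂ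
        rw [inner_star', map_sub, map_zero]
        rfl
  rw [h1]
  rfl

lemma gr_snd {x : WithLp 2 (H × H)} (hx : x ∈ (gr F p u).topologicalClosure) :
    (ofLp x).2 ∈ (cyc F u).topologicalClosure := by
  have h2 : closure (gr F p u : Set (WithLp 2 (H × H))) ⊆
      {x | pr2 x ∈ (cyc F u).topologicalClosure} := by
    apply closure_minimal
    · rintro _ ⟨f, hf, rfl⟩
      exact Submodule.le_topologicalClosure _ (mem_cyc hf u)
    · exact (Submodule.isClosed_topologicalClosure _).preimage pr2.continuous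
  exact h2 hx

/-- the range of the off-diagonal entry is dense in the cyclic module -/
lemma off_range (hp : p ∈ F.F) (hs : star p = p) (hu : S.R p u = u) :
    proj (LinearMap.range (off F p u : H →ₗ[ℂ] H)) = proj (cyc F u) := by
  ext ξ
  apply proj_unique
  · -- proj (cyc F u) ξ lies in the closure of the range
    set W := LinearMap.range (off F p u : H →ₗ[ℂ] H) with hW
    have hWc : W ≤ (cyc F u).topologicalClosure := by
      rintro _ ⟨η, rfl⟩
      exact gr_snd (proj_mem _ _)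
    set y : H := proj (cyc F u) ξ - proj W (proj (cyc F u) ξ) with hy
    have hyc : y ∈ (cyc F u).topologicalClosure := by
      apply Submodule.sub_mem _ (proj_mem _ _)
      have h1 : W.topologicalClosure ≤ (cyc F u).topologicalClosure :=
        Submodule.topologicalClosure_minimal _ hWc (Submodule.isClosed_topologicalClosure _)
      exact h1 (proj_mem _ _)
    have hyW : ∀ η, ⟪y, off F p u η⟫_ℂ = 0 := by
      intro η
      exact proj_inner' W _ ⟨η, rfl⟩
    -- the projection of (0, y) has zero first coordinate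
    set z := proj (gr F p u) (toLp 2 ((0 : H), y)) with hz
    have hz1 : (ofLp z).1 = 0 := by
      rw [← @inner_self_eq_zero ℂ]
      have h1 := hyW (ofLp z).1
      have h2 : ⟪y, off F p u (ofLp z).1⟫_ℂ =
          ⟪(toLp 2 ((0 : H), y) : WithLp 2 (H × H)),
            proj (gr F p u) (toLp 2 ((ofLp z).1, (0 : H)))⟫_ℂ := by
        rw [inner2]
        show _ = ⟪(0 : H), _⟫_ℂ + ⟪y, _⟫_ℂ
        rw [inner_zero_left, zero_add]
        rfl
      rw [h2, ← proj_symm, inner2] at h1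
      have h3 : ⟪(ofLp z).2, (0 : H)⟫_ℂ = 0 := inner_zero_right _
      have h4 : ⟪(ofLp z).1, (ofLp z).1⟫_ℂ + ⟪(ofLp z).2, (0 : H)⟫_ℂ = 0 := h1
      rwa [h3, add_zero] at h4
    have hz2 : (ofLp z).2 = 0 := by
      rw [← @inner_self_eq_zero ℂ]
      refine S.dense_ind (P := fun w => ⟪w, (ofLp z).2⟫_ℂ = 0)
        (isClosed_eq (continuous_id.inner continuous_const) continuous_const) ?_ _
      intro a ha
      rw [gr_rel hp hs hu ha (proj_mem _ _), hz1, map_zero, inner_zero_left]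
    have hy0 : y = 0 := by
      rw [← @inner_self_eq_zero ℂ]
      apply inner_clos _ hyc
      rintro _ ⟨f, hf, rfl⟩
      have h1 := proj_inner' (gr F p u) (toLp 2 ((0 : H), y)) (gr_mem (p := p) (u := u) hf)
      rw [← hz, inner2] at h1
      have h2 : ⟪(0 : H) - (ofLp z).1, S.R f (p S.Ω)⟫_ℂ + ⟪y - (ofLp z).2, S.R f u⟫_ℂ = 0 := h1
      rwa [hz1, hz2, sub_zero, sub_zero, inner_zero_left, zero_add] at h2
    have h5 : proj (cyc F u) ξ = proj W (proj (cyc F u) ξ) := sub_eq_zero.1 hy0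
    rw [h5]
    exact proj_mem _ _
  · rintro _ ⟨η, rfl⟩
    exact proj_inner _ _ (gr_snd (proj_mem _ _))

lemma off_supp (hp : p ∈ F.F) (hs : star p = p) (hi : p * p = p) (ξ : H) :
    off F p u (ξ - p (F.e ξ)) = 0 := by
  rw [off_apply]
  have : proj (gr F p u) (toLp 2 (ξ - p (F.e ξ), (0 : H))) = 0 := by
    apply proj_zero
    rintro _ ⟨g, hg, rfl⟩
    rw [inner2]
    show ⟪ξ - p (F.e ξ), S.R g (p S.Ω)⟫_ℂ + ⟪(0 : H), _⟫_ℂ = 0
    rw [inner_zero_left, add_zero, R_vec S (F.le p hp) (F.le g hg)]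
    have h1 : (p * g) S.Ω = p ((p * g) S.Ω) := by
      show (p * g) S.Ω = (p * (p * g)) S.Ω
      rw [← mul_assoc, hi]
    have hm : (p * g) S.Ω ∈ F.HF := vec_mem F (mul_mem hp hg)
    rw [inner_sub_left]
    have h2 : ⟪p (F.e ξ), (p * g) S.Ω⟫_ℂ = ⟪ξ, (p * g) S.Ω⟫_ℂ := by
      rw [← inner_star', hs, ← h1]
      have h3 : ⟪F.e ξ, (p * g) S.Ω⟫_ℂ = ⟪ξ, F.e ((p * g) S.Ω)⟫_ℂ := proj_symm _ _ _
      rw [h3, e_self F hm]
    rw [h2, sub_self]
  rw [this]
  rfl

/-- the cyclic module generated by a vector `u` with `R_p u = u` has trace at most `μ(p)` -/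
theorem tr_cyc (hp : p ∈ F.F) (hs : star p = p) (hi : p * p = p) (hu : S.R p u = u) :
    τ.tr (proj (cyc F u)) ≤ ENNReal.ofReal (S.mu p).re := by
  obtain ⟨v, hv1, hv2, hv3, hv4, hv5⟩ := exists_polar (off F p u)
  have hvRC : v ∈ F.RC := basic_closed_comm off_RC hv5
  rw [off_range hp hs hu] at hv1
  have hvb : v ∈ F.basic := by rw [basic_eq]; exact hvRC
  rw [← hv1, ← τ.trace v hvb, ← tr_proj τ hp hs hi]
  have hpe : p * F.e ∈ F.RC := RC_mul (RC_A (F.le p hp)) RC_e
  have hpes : star (p * F.e) = p * F.e := by rw [star_mul, hs, e_star, L_e F hp]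
  have hvpe : v * (p * F.e) = v := by
    ext ξ
    have h1 := hv3 _ (off_supp (u := u) hp hs hi ξ)
    rw [map_sub, sub_eq_zero] at h1
    exact h1.symm
  apply tr_mono τ (RC_mul (RC_star hvRC) hvRC) hpe (star_mul_self_nonneg v)
  -- v* v ≤ p e
  have hq : (star v * v) * (star v * v) = star v * v := by
    rw [mul_assoc, ← mul_assoc v, hv2]
  have hqs : star (star v * v) = star v * v := by rw [star_mul, star_star]
  have hqpe : (star v * v) * (p * F.e) = star v * v := by rw [mul_assoc, hvpe]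
  have hpeq : (p * F.e) * (star v * v) = star v * v := by
    have := congrArg star hqpe
    rwa [star_mul, hqs, hpes] at this
  have hpe2 : (p * F.e) * (p * F.e) = p * F.e := by
    rw [mul_assoc, ← mul_assoc F.e, L_e F hp, mul_assoc p F.e F.e, e_idem, ← mul_assoc, hi]
  rw [← sub_nonneg]
  have : p * F.e - star v * v = star (p * F.e - star v * v) * (p * F.e - star v * v) := by
    rw [star_sub, hpes, hqs, sub_mul, mul_sub, mul_sub, hq, hqpe, hpeq, hpe2]
    abel
  rw [this]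
  exact star_mul_self_nonneg _

end graph

end Pool.Agent.N303.IE
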