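import Mathlib
import Pool.Agent.N303.IE.E

/-!
# Part G: decomposition of modules of finite trace into cyclic modules
-/

set_option autoImplicit false
set_option linter.unusedSectionVars false
set_option linter.unusedVariables false

open scoped InnerProductSpace ENNReal NNReal Topology
open Filter

namespace Pool.Agent.N303.IE

universe u

variable {H : Type u} [NormedAddCommGroup H] [InnerProductSpace ℂ H] [CompleteSpace H]
variable {S : Sys H} {F : Sub S}

/-- vectors `v` generating a module whose trace is `μ(p)` -/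
def Good (τ : BTrace F) (v : H) (p : H →L[ℂ] H) : Prop :=
  p ∈ F.F ∧ star p = p ∧ p * p = p ∧ S.R p v = v ∧
    τ.tr (proj (cyc F v)) = ENNReal.ofReal (S.mu p).re

/-- orthogonal families of good vectors of `V` -/
def Fam (τ : BTrace F) (V : Submodule ℂ H) : Set (Set H) :=
  {s | (∀ v ∈ s, v ∈ V ∧ v ≠ 0 ∧ ∃ p, Good τ v p) ∧
    ∀ v ∈ s, ∀ w ∈ s, v ≠ w → ∀ f ∈ F.F, ⟪v, S.R f w⟫_ℂ = 0}

/-- a nonzero closed module contains a nonzero good vector -/
lemma exists_good (τ : BTrace F) {V : Submodule ℂ H} (hVc : IsClosed (V : Set H))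
    (hV : RInv F V) {ξ : H} (hξ : ξ ∈ V) (h0 : ξ ≠ 0) :
    ∃ v ∈ V, v ≠ 0 ∧ ∃ p, Good τ v p := by
  set Q := proj V with hQ
  have hQRC : Q ∈ F.RC := proj_RC hV
  obtain ⟨a, ha, hQa⟩ : ∃ a ∈ S.A, Q (a S.Ω) ≠ 0 := by
    by_contra hcon
    push Not at hcon
    have : Q = 0 := clm_ext S (fun a ha => by simp [hcon a ha])
    have h1 : Q ξ = ξ := proj_self' hξ
    rw [this] at h1
    exact h0 h1.symm
  set x : H →L[ℂ] H := Q * a * F.e with hx
  have hxRC : x ∈ F.RC := RC_mul (RC_mul hQRC (RC_A ha)) RC_e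
  have hxΩ : x S.Ω ≠ 0 := by
    have h1 : x S.Ω = Q (a (F.e S.Ω)) := rfl
    rw [h1, e_self F (Ω_mem F)]
    exact hQa
  obtain ⟨w, hw1, hw2, hw3, hw4, hw5⟩ := exists_polar x
  have hwRC : w ∈ F.RC := basic_closed_comm hxRC hw5
  have hwe : w * F.e = w := by
    ext ζ
    show w (F.e ζ) = w ζ
    have h1 : x (ζ - F.e ζ) = 0 := by
      have h2 : x (F.e ζ) = x ζ := by
        show Q (a (F.e (F.e ζ))) = Q (a (F.e ζ))
        rw [e_self F (e_mem F ζ)]
      rw [map_sub, h2, sub_self]
    have h2 := hw3 _ h1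
    rw [map_sub, sub_eq_zero] at h2
    exact h2.symm
  set T := star w * w with hT
  have hTs : star T = T := by rw [hT, star_mul, star_star]
  have hTT : T * T = T := by
    rw [hT, mul_assoc, ← mul_assoc w, hw2]
  have hTRC : T ∈ F.RC := RC_mul (RC_star hwRC) hwRC
  have hTe : T * F.e = T := by rw [hT, mul_assoc, hwe]
  obtain ⟨p, hp, hps, hpp, hpe⟩ := corner hTs hTT hTRC hTe
  have hrange : ∀ ζ, w ζ ∈ V := by
    intro ζ
    have h1 : w ζ = (w * star w) (w ζ) := by
      show w ζ = (w * star w * w) ζ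
      rw [hw2]
    rw [h1, hw1]
    have h2 : (LinearMap.range (x : H →ₗ[ℂ] H)).topologicalClosure ≤ V := by
      apply Submodule.topologicalClosure_minimal _ _ hVc
      rintro _ ⟨η, rfl⟩
      exact proj_mem' hVc _
    exact h2 (proj_mem _ _)
  refine ⟨w S.Ω, hrange _, ?_, p, hp, hps, hpp, ?_, ?_⟩
  · intro h
    exact hxΩ (hw4 _ h)
  · rw [← RC_vec hwRC hp]
    have h1 : p S.Ω = T S.Ω := by
      have := congrArg (fun X : H →L[ℂ] H => X S.Ω) hpe
      have h2 : p (F.e S.Ω) = T S.Ω := this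
      rwa [e_self F (Ω_mem F)] at h2
    rw [h1]
    show (w * (star w * w)) S.Ω = w S.Ω
    rw [← mul_assoc, hw2]
  · have hcyc : proj (cyc F (w S.Ω)) = w * star w := by
      ext ζ
      apply proj_unique
      · have h1 : (w * star w) ζ = w (F.e ((star w) ζ)) := by
          show w ((star w) ζ) = (w * F.e) ((star w) ζ)
          rw [hwe]
        rw [h1]
        refine HF_ind F (P := fun y => w y ∈ (cyc F (w S.Ω)).topologicalClosure)
          ((Submodule.isClosed_topologicalClosure _).preimage w.continuous) ?_ (e_mem F _)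
        intro f hf
        rw [RC_vec hwRC hf]
        exact Submodule.le_topologicalClosure _ (mem_cyc hf _)
      · rintro _ ⟨f, hf, rfl⟩
        rw [← RC_vec hwRC hf, ← inner_star, map_sub]
        have : (star w) ((w * star w) ζ) = (star w) ζ := by
          have h3 := congrArg star hw2
          rw [star_mul, star_mul, star_star] at h3
          exact congrArg (fun X : H →L[ℂ] H => X ζ) h3
        rw [this, sub_self, inner_zero_left]
    have hwb : w ∈ F.basic := by rw [basic_eq]; exact hwRC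
    rw [hcyc, ← τ.trace w hwb, ← tr_proj τ hp hps hpp, hpe]

theorem exists_family (τ : BTrace F) {V : Submodule ℂ H} (hVc : IsClosed (V : Set H))
    (hV : RInv F V) : ∃ s ∈ Fam τ V, V ≤ (⨆ v : s, cyc F (v : H)).topologicalClosure := by
  obtain ⟨s, hs⟩ := zorn_subset (Fam τ V) (by
    intro c hc hchain
    refine ⟨⋃₀ c, ⟨?_, ?_⟩, fun s hs => Set.subset_sUnion_of_mem hs⟩
    · rintro v ⟨s, hs, hv⟩
      exact (hc hs).1 v hv
    · rintro v ⟨s, hs, hv⟩ w ⟨t, ht, hw⟩ hvw f hf
      rcases hchain.total hs ht with h | h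
      · exact (hc ht).2 v (h hv) w hw hvw f hf
      · exact (hc hs).2 v hv w (h hw) hvw f hf)
  refine ⟨s, hs.prop, ?_⟩
  by_contra hcon
  obtain ⟨ξ, hξV, hξ⟩ := SetLike.not_le_iff_exists.1 hcon
  set W : Submodule ℂ H := ⨆ v : s, cyc F (v : H) with hW
  have hWinv : RInv F W := sup_inv fun v => cyc_inv _
  have hWV : W ≤ V := iSup_le fun v => cyc_le hV (hs.prop.1 v v.2).1
  set V' : Submodule ℂ H := V ⊓ Wᗮ with hV'
  have hV'c : IsClosed (V' : Set H) := hVc.inter (Submodule.isClosed_orthogonal W)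
  have hV'inv : RInv F V' := by
    rintro f hf v ⟨hv1, hv2⟩
    refine ⟨hV f hf v hv1, ?_⟩
    rw [SetLike.mem_coe, Submodule.mem_orthogonal] at hv2 ⊢
    intro w hw
    rw [← inner_star, ← R_star]
    exact hv2 _ (hWinv _ (star_mem hf) w hw)
  have hξ' : ξ - proj W ξ ∈ V' := by
    refine ⟨?_, ?_⟩
    · apply Submodule.sub_mem _ hξV
      exact (Submodule.topologicalClosure_minimal _ hWV hVc) (proj_mem W ξ)
    · rw [SetLike.mem_coe, Submodule.mem_orthogonal']
      intro w hw
      exact proj_inner' W ξ hw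
  have hξ0 : ξ - proj W ξ ≠ 0 := by
    intro h
    rw [sub_eq_zero] at h
    exact hξ (h ▸ proj_mem W ξ)
  obtain ⟨v, hv, hv0, hvg⟩ := exists_good τ hV'c hV'inv hξ' hξ0
  have hvW : ∀ w ∈ W, ⟪w, v⟫_ℂ = 0 := (Submodule.mem_orthogonal _ _).1 hv.2
  have hnew : insert v s ∈ Fam τ V := by
    refine ⟨?_, ?_⟩
    · rintro w (rfl | hw)
      · exact ⟨hv.1, hv0, hvg⟩
      · exact hs.prop.1 w hw
    · rintro x (rfl | hx) y (rfl | hy) hxy f hf
      · exact absurd rfl hxy
      · rw [← inner_conj_symm, hvW, map_zero]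
        exact Submodule.mem_iSup_of_mem (⟨y, hy⟩ : s) (mem_cyc hf _)
      · rw [← inner_star, ← R_star]
        exact hvW _ (Submodule.mem_iSup_of_mem (⟨x, hx⟩ : s) (mem_cyc (star_mem hf) _))
      · exact hs.prop.2 x hx y hy hxy f hf
  have hvs : v ∈ s := hs.le_of_ge hnew (Set.subset_insert v s) (Set.mem_insert v s)
  have : ⟪v, v⟫_ℂ = 0 := hvW v (Submodule.mem_iSup_of_mem (⟨v, hvs⟩ : s) (self_mem_cyc _))
  exact hv0 (inner_self_eq_zero.1 this)

/-- finite sums of modules -/
lemma fsup_inv {ι : Type*} (t : Finset ι) (u : ι → H) :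
    RInv F (t.sup fun i => cyc F (u i)) := by
  classical
  induction t using Finset.induction_on with
  | empty =>
    intro f hf v hv
    simp only [Finset.sup_empty, Submodule.mem_bot] at hv ⊢
    rw [hv, map_zero]
  | insert i t hi ih =>
    rw [Finset.sup_insert]
    exact sup_inv' (cyc_inv _) ih

lemma proj_bot : proj (⊥ : Submodule ℂ H) = 0 := by
  ext x
  apply proj_zero
  intro w hw
  rw [(Submodule.mem_bot ℂ).1 hw, inner_zero_right]

lemma tr_zero (τ : BTrace F) : τ.tr 0 = 0 := by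
  have h0 : (0 : H →L[ℂ] H) ∈ F.basic := by
    rw [basic_eq]; intro f hf; simp
  have := τ.smul 0 0 h0 le_rfl
  simpa using this

lemma family_sum (τ : BTrace F) {V : Submodule ℂ H} {s : Set H} (hs : s ∈ Fam τ V)
    (t : Finset s) {p : s → (H →L[ℂ] H)} (hp : ∀ v : s, Good τ v (p v)) :
    τ.tr (proj (t.sup fun v : s => cyc F (v : H))) =
      ∑ v ∈ t, ENNReal.ofReal (S.mu (p v)).re := by
  classical
  induction t using Finset.induction_on with
  | empty =>
    rw [Finset.sup_empty, proj_bot, tr_zero, Finset.sum_empty]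
  | insert v t hv ih =>
    rw [Finset.sup_insert, sup_comm, proj_sup (fsup_inv t _), Finset.sum_insert hv]
    have h1 : proj (t.sup fun v : s => cyc F (v : H)) (v : H) = 0 := by
      apply proj_zero
      intro w hw
      have h2 : (t.sup fun v : s => cyc F (v : H)) ≤ (Submodule.span ℂ {(v : H)})ᗮ := by
        apply Finset.sup_le
        rintro w hw _ ⟨f, hf, rfl⟩
        rw [Submodule.mem_orthogonal_singleton_iff_inner_right]
        apply hs.2 v v.2 w w.2 _ f hf
        intro h
        exact hv ((Subtype.ext h : v = w) ▸ hw)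
      exact (Submodule.mem_orthogonal_singleton_iff_inner_right).1 (h2 hw)
    rw [h1, sub_zero, tr_add τ (proj_RC (fsup_inv t _)) (proj_RC (cyc_inv _)) (proj_nonneg _)
      (proj_nonneg _), ih, (hp v).2.2.2.2, add_comm]

lemma family_bound (τ : BTrace F) {V : Submodule ℂ H} (hV : RInv F V) {s : Set H}
    (hs : s ∈ Fam τ V)
    (t : Finset s) {p : s → (H →L[ℂ] H)} (hp : ∀ v : s, Good τ v (p v)) :
    ∑ v ∈ t, ENNReal.ofReal (S.mu (p v)).re ≤ τ.tr (proj V) := by
  rw [← family_sum τ hs t hp]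
  apply tr_mono τ (proj_RC (fsup_inv t _)) (proj_RC hV) (proj_nonneg _)
  apply proj_le
  apply Finset.sup_le
  intro v hv
  exact cyc_le hV (hs.1 v v.2).1

/-- the same for vectors with `R_p u = u`: subadditivity -/
lemma fsup_bound (τ : BTrace F) {ι : Type*} (t : Finset ι) (u : ι → H) (p : ι → (H →L[ℂ] H))
    (hp : ∀ i, p i ∈ F.F ∧ star (p i) = p i ∧ p i * p i = p i ∧ S.R (p i) (u i) = u i) :
    τ.tr (proj (t.sup fun i => cyc F (u i))) ≤ ∑ i ∈ t, ENNReal.ofReal (S.mu (p i)).re := by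
  classical
  induction t using Finset.induction_on with
  | empty =>
    rw [Finset.sup_empty, proj_bot, tr_zero, Finset.sum_empty]
  | insert i t hi ih =>
    rw [Finset.sup_insert, sup_comm, proj_sup (fsup_inv t _), Finset.sum_insert hi]
    rw [tr_add τ (proj_RC (fsup_inv t _)) (proj_RC (cyc_inv _)) (proj_nonneg _)
      (proj_nonneg _), add_comm]
    obtain ⟨h1, h2, h3, h4⟩ := hp i
    gcongr
    apply tr_cyc τ h1 h2 h3
    rw [map_sub, h4, RC_apply (proj_RC (fsup_inv t _)) h1, h4]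

end Pool.Agent.N303.IE
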