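import Mathlib
import Pool.Agent.N303.IE.G

/-!
# Part K: assembly
-/

set_option autoImplicit false
set_option linter.unusedSectionVars false
set_option linter.unusedVariables false

open scoped InnerProductSpace ENNReal NNReal Topology ComplexOrder
open Filter

namespace Pool.Agent.N303.IE

universe u

variable {H : Type u} [NormedAddCommGroup H] [InnerProductSpace ℂ H] [CompleteSpace H]
variable {S : Sys H}

lemma isLUB_proj {ι : Type*} [Preorder ι] [IsDirectedOrder ι] [Nonempty ι]
    (W : ι → Submodule ℂ H) (hW : Monotone W) :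
    IsLUB (Set.range fun i => proj (W i)) (proj (⨆ i, W i)) := by
  constructor
  · rintro _ ⟨i, rfl⟩
    exact proj_le (le_iSup W i)
  · intro y hy
    have hy' : ∀ i, proj (W i) ≤ y := fun i => hy ⟨i, rfl⟩
    rw [ContinuousLinearMap.le_def]
    have key : ∀ x, 0 ≤ ⟪(y - proj (⨆ i, W i)) x, x⟫_ℂ := by
      intro x
      have h1 : ∀ i, 0 ≤ ⟪(y - proj (W i)) x, x⟫_ℂ := by
        intro i
        have h2 := hy' i
        rw [ContinuousLinearMap.le_def, ContinuousLinearMap.isPositive_iff] at h2
        exact h2.2 x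
      have h3 : Tendsto (fun i => (proj (W i)) x) atTop (𝓝 (proj (⨆ i, W i) x)) := by
        have h4 := Submodule.starProjection_tendsto_closure_iSup
          (fun i => (W i).topologicalClosure)
          (fun i j hij => Submodule.topologicalClosure_mono (hW hij)) x
        have h5 : (⨆ i, (W i).topologicalClosure).topologicalClosure =
            (⨆ i, W i).topologicalClosure := by
          apply le_antisymm
          · apply Submodule.topologicalClosure_minimal _ _ (Submodule.isClosed_topologicalClosure _)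
            exact iSup_le fun i => Submodule.topologicalClosure_mono (le_iSup W i)
          · apply Submodule.topologicalClosure_mono
            exact iSup_mono fun i => Submodule.le_topologicalClosure _
        have h6 : ∀ (V V' : Submodule ℂ H) (h : V = V') [V.HasOrthogonalProjection]
            [V'.HasOrthogonalProjection], V.starProjection x = V'.starProjection x := by
          intro V V' h _ _
          subst h
          rfl
        rw [h6 _ _ h5] at h4
        exact h4
      have h7 : Tendsto (fun i => ⟪(y - proj (W i)) x, x⟫_ℂ) atTop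
          (𝓝 ⟪(y - proj (⨆ i, W i)) x, x⟫_ℂ) := by
        have h8 : ∀ T : H →L[ℂ] H, (y - T) x = y x - T x := fun _ => rfl
        simp only [h8]
        exact (tendsto_const_nhds.sub h3).inner tendsto_const_nhds
      exact ge_of_tendsto' h7 h1
    rw [ContinuousLinearMap.isPositive_iff_complex]
    intro x
    have h := key x
    have h1 : 0 ≤ (⟪(y - proj (⨆ i, W i)) x, x⟫_ℂ).re ∧
        0 = (⟪(y - proj (⨆ i, W i)) x, x⟫_ℂ).im := Complex.le_def.1 h
    refine ⟨?_, h1.1⟩
    apply Complex.ext
    · simp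
    · rw [Complex.ofReal_im]
      exact h1.2

lemma finset_sup_eq_iSup {ι : Type*} (V : ι → Submodule ℂ H) :
    (⨆ t : Finset ι, t.sup V) = ⨆ i, V i := by
  apply le_antisymm
  · exact iSup_le fun t => Finset.sup_le fun i _ => le_iSup V i
  · apply iSup_le
    intro i
    calc V i = ({i} : Finset ι).sup V := by simp
      _ ≤ _ := le_iSup (fun t : Finset ι => t.sup V) {i}

section U

variable (G : Sub S)

lemma U_R (g : S.A.toStarSubalgebra) (x : H) :
    S.U (S.R (g : H →L[ℂ] H) x) = S.R (S.α g : H →L[ℂ] H) (S.U x) := by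
  refine S.dense_ind (P := fun x => S.U (S.R (g : H →L[ℂ] H) x) =
    S.R (S.α g : H →L[ℂ] H) (S.U x)) (isClosed_eq (S.U.continuous.comp (S.R _).continuous)
    ((S.R _).continuous.comp S.U.continuous)) ?_ x
  intro a ha
  have h1 : S.R (g : H →L[ℂ] H) (a S.Ω) = ((⟨a, ha⟩ * g : S.A.toStarSubalgebra) : H →L[ℂ] H) S.Ω :=
    R_vec S ha g.2
  have h2 : S.U (a S.Ω) = (S.α ⟨a, ha⟩ : H →L[ℂ] H) S.Ω := S.U_apply ⟨a, ha⟩
  rw [h1, S.U_apply, h2, R_vec S (S.α ⟨a, ha⟩).2 (S.α g).2, map_mul]
  rfl

lemma U_HF {x : H} (hx : x ∈ G.HF) : S.U x ∈ G.HF := by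
  refine HF_ind G (P := fun x => S.U x ∈ G.HF) ((HF_closed G).preimage S.U.continuous) ?_ hx
  intro g hg
  have h2 : S.U (g S.Ω) = (S.α ⟨g, G.le g hg⟩ : H →L[ℂ] H) S.Ω := S.U_apply ⟨g, G.le g hg⟩
  rw [h2]
  exact vec_mem G ((G.inv ⟨g, G.le g hg⟩).2 hg)

lemma Us_HF {x : H} (hx : x ∈ G.HF) : S.U.symm x ∈ G.HF := by
  refine HF_ind G (P := fun x => S.U.symm x ∈ G.HF)
    ((HF_closed G).preimage S.U.symm.continuous) ?_ hx
  intro g hg
  obtain ⟨g', hg'⟩ : ∃ g', S.α g' = ⟨g, G.le g hg⟩ :=
      ⟨S.α.symm _, S.α.apply_symm_apply _⟩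
  have h1 : (g' : H →L[ℂ] H) ∈ G.F := by
    rw [← G.inv g', hg']
    exact hg
  have h2 : S.U ((g' : H →L[ℂ] H) S.Ω) = g S.Ω := by
    rw [S.U_apply, hg']
  rw [← h2, LinearIsometryEquiv.symm_apply_apply]
  exact vec_mem G h1

lemma U_e (x : H) : S.U (G.e x) = G.e (S.U x) := by
  symm
  apply proj_unique
  · exact Submodule.le_topologicalClosure _ (U_HF G (e_mem G x))
  · intro w hw
    have h1 : w = S.U (S.U.symm w) := (LinearIsometryEquiv.apply_symm_apply _ _).symm
    rw [h1, ← map_sub, LinearIsometryEquiv.inner_map_map]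
    exact proj_inner' G.HF x (Us_HF G hw)

/-- the `G`-module generated by `(1 - e_G) V` -/
noncomputable def ext (V : Submodule ℂ H) : Submodule ℂ H :=
  (⨆ v : V, cyc G ((v : H) - G.e v)).topologicalClosure

variable {G}

lemma ext_mem {V : Submodule ℂ H} {v : H} (hv : v ∈ V) {g : H →L[ℂ] H} (hg : g ∈ G.F) :
    S.R g (v - G.e v) ∈ ext G V :=
  Submodule.le_topologicalClosure _
    (Submodule.mem_iSup_of_mem (⟨v, hv⟩ : V) (mem_cyc hg _))

lemma ext_le {V W : Submodule ℂ H} (hW : IsClosed (W : Set H))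
    (h : ∀ v ∈ V, ∀ g ∈ G.F, S.R g (v - G.e v) ∈ W) : ext G V ≤ W := by
  apply Submodule.topologicalClosure_minimal _ _ hW
  apply iSup_le
  rintro ⟨v, hv⟩ _ ⟨g, hg, rfl⟩
  exact h v hv g hg

lemma ext_inv (V : Submodule ℂ H) : RInv G (ext G V) :=
  clos_inv (sup_inv fun _ => cyc_inv _)

lemma ext_perp (V : Submodule ℂ H) : ext G V ≤ G.HFᗮ := by
  apply ext_le (Submodule.isClosed_orthogonal _)
  intro v hv g hg
  rw [Submodule.mem_orthogonal]
  intro w hw
  have h1 : ⟪v - G.e v, S.R (star g) w⟫_ℂ = 0 := proj_inner' G.HF v (RHF G (star_mem hg) hw)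
  rw [← inner_star, ← R_star, ← inner_conj_symm, h1, map_zero]

lemma ext_U {V : Submodule ℂ H} (hV : V.map (S.U.toLinearEquiv : H →ₗ[ℂ] H) = V) :
    (ext G V).map (S.U.toLinearEquiv : H →ₗ[ℂ] H) = ext G V := by
  have hV1 : ∀ v ∈ V, S.U v ∈ V := by
    intro v hv
    rw [← hV]
    exact ⟨v, hv, rfl⟩
  have hV2 : ∀ v ∈ V, S.U.symm v ∈ V := by
    intro v hv
    rw [← hV] at hv
    obtain ⟨w, hw, hwv⟩ := hv
    have : S.U w = v := hwv
    rw [← this, LinearIsometryEquiv.symm_apply_apply]
    exact hw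
  apply le_antisymm
  · rw [Submodule.map_le_iff_le_comap]
    apply ext_le
    · exact (Submodule.isClosed_topologicalClosure _).preimage S.U.continuous
    · intro v hv g hg
      show S.U (S.R g (v - G.e v)) ∈ ext G V
      have h1 := U_R ⟨g, G.le g hg⟩ (v - G.e v)
      have h2 : S.U (S.R g (v - G.e v)) =
          S.R (S.α ⟨g, G.le g hg⟩ : H →L[ℂ] H) (S.U v - G.e (S.U v)) := by
        rw [← U_e, ← map_sub]
        exact h1
      rw [h2]
      exact ext_mem (hV1 v hv) ((G.inv ⟨g, G.le g hg⟩).2 hg)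
  · intro x hx
    refine ⟨S.U.symm x, ?_, ?_⟩
    swap
    · show S.U (S.U.symm x) = x
      rw [LinearIsometryEquiv.apply_symm_apply]
    have h3 : ext G V ≤ (ext G V).comap (S.U.symm.toLinearEquiv : H →ₗ[ℂ] H) := by
      apply ext_le
      · exact (Submodule.isClosed_topologicalClosure _).preimage S.U.symm.continuous
      · intro v hv g hg
        show S.U.symm (S.R g (v - G.e v)) ∈ ext G V
        obtain ⟨g', hg'⟩ : ∃ g', S.α g' = ⟨g, G.le g hg⟩ :=
      ⟨S.α.symm _, S.α.apply_symm_apply _⟩
        have h1 : (g' : H →L[ℂ] H) ∈ G.F := by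
          rw [← G.inv g', hg']
          exact hg
        have h2 : S.R g (v - G.e v) = S.U (S.R (g' : H →L[ℂ] H)
            (S.U.symm v - G.e (S.U.symm v))) := by
          rw [U_R, map_sub S.U, U_e, LinearIsometryEquiv.apply_symm_apply, hg']
        rw [h2, LinearIsometryEquiv.symm_apply_apply]
        exact ext_mem (hV2 v hv) h1
    exact h3 hx

end U

variable {F G : Sub S}

/-- the trace of the extended module is finite -/
theorem ext_fin (hFG : ∀ f ∈ F.F, f ∈ G.F) (τF : BTrace F) (τG : BTrace G) {V : Submodule ℂ H}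
    (hVc : IsClosed (V : Set H)) (hV : RInv F V) :
    τG.tr (proj (ext G V)) ≤ τF.tr (proj V) := by
  classical
  obtain ⟨s, hs, hsV⟩ := exists_family τF hVc hV
  choose p hp using fun v : s => (hs.1 (v : H) v.2).2.2
  set c : s → Submodule ℂ H := fun v => cyc G ((v : H) - G.e (v : H)) with hc
  -- the extended module is generated by the family
  have hext : ext G V = (⨆ v, c v).topologicalClosure := by
    apply le_antisymm
    · have h1 : ∀ v ∈ V, v - G.e v ∈ (⨆ v, c v).topologicalClosure := by
        have h2 : (⨆ v : s, cyc F (v : H)).topologicalClosure ≤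
            ((⨆ v, c v).topologicalClosure).comap ((1 - G.e : H →L[ℂ] H) : H →ₗ[ℂ] H) := by
          apply Submodule.topologicalClosure_minimal
          · apply iSup_le
            rintro v _ ⟨f, hf, rfl⟩
            show (1 - G.e : H →L[ℂ] H) (S.R f v) ∈ (⨆ v, c v).topologicalClosure
            have h3 : (1 - G.e : H →L[ℂ] H) (S.R f v) = S.R f ((v : H) - G.e v) := by
              show S.R f v - G.e (S.R f v) = _
              rw [map_sub, RC_apply (F := G) RC_e (hFG f hf)]
            rw [h3]
            exact Submodule.le_topologicalClosure _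
              (Submodule.mem_iSup_of_mem v (mem_cyc (hFG f hf) _))
          · exact (Submodule.isClosed_topologicalClosure _).preimage
              (1 - G.e : H →L[ℂ] H).continuous
        intro v hv
        exact h2 (hsV hv)
      apply ext_le (Submodule.isClosed_topologicalClosure _)
      intro v hv g hg
      exact clos_inv (sup_inv fun _ => cyc_inv _) g hg _ (h1 v hv)
    · apply Submodule.topologicalClosure_minimal _ _ (Submodule.isClosed_topologicalClosure _)
      apply iSup_le
      rintro v _ ⟨g, hg, rfl⟩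
      exact ext_mem (hs.1 v v.2).1 hg
  have hp' : ∀ v : s, p v ∈ G.F ∧ star (p v) = p v ∧ p v * p v = p v ∧
      S.R (p v) ((v : H) - G.e v) = (v : H) - G.e v := by
    intro v
    obtain ⟨h1, h2, h3, h4, -⟩ := hp v
    refine ⟨hFG _ h1, h2, h3, ?_⟩
    rw [map_sub, h4, RC_apply (F := G) RC_e (hFG _ h1), h4]
  have hbound : ∀ t : Finset s, τG.tr (proj (t.sup c)) ≤ τF.tr (proj V) := fun t =>
    (fsup_bound τG t _ p hp').trans (family_bound τF hV hs t hp)
  have hmono : Monotone fun t : Finset s => t.sup c := fun t t' h => Finset.sup_mono h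
  have hlub := isLUB_proj (fun t : Finset s => t.sup c) hmono
  have hnorm := τG.normal (Set.range fun t : Finset s => proj (t.sup c))
    ⟨_, ⟨∅, rfl⟩⟩ (by
      rintro _ ⟨t, rfl⟩ _ ⟨t', rfl⟩
      exact ⟨_, ⟨t ∪ t', rfl⟩, proj_le (hmono Finset.subset_union_left),
        proj_le (hmono Finset.subset_union_right)⟩) (by
      rintro _ ⟨t, rfl⟩
      rw [basic_eq]
      exact ⟨proj_RC (fsup_inv t _), proj_nonneg _⟩) _ hlub
  rw [hext, proj_clos, ← finset_sup_eq_iSup c, hnorm]
  apply iSup₂_le
  rintro _ ⟨t, rfl⟩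
  exact hbound t

theorem ext_UMod (hFG : ∀ f ∈ F.F, f ∈ G.F) (τF : BTrace F) (τG : BTrace G) {V : Submodule ℂ H}
    (hV : IsUMod τF V) : IsUMod τG (ext G V) where
  closed := Submodule.isClosed_topologicalClosure _
  right := ext_inv V
  perp := ext_perp V
  Uinv := ext_U hV.Uinv
  fin := (ext_fin hFG τF τG hV.closed hV.right).trans_lt hV.fin

theorem main (hFG : ∀ f ∈ F.F, f ∈ G.F) (τF : BTrace F) (τG : BTrace G)
    (h : IsometricExt τF) : IsometricExt τG := by
  apply le_antisymm
  · apply Submodule.topologicalClosure_minimal _ _ (Submodule.isClosed_orthogonal _)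
    exact iSup₂_le fun V hV => hV.perp
  · intro ξ hξ
    have hHF : F.HF ≤ G.HF := by
      intro x hx
      refine HF_ind F (P := fun x => x ∈ G.HF) (HF_closed G) ?_ hx
      intro f hf
      exact vec_mem G (hFG f hf)
    have h1 : ξ ∈ F.HFᗮ := (Submodule.orthogonal_le hHF) hξ
    have h2 : E τF ≤ (E τG).comap ((1 - G.e : H →L[ℂ] H) : H →ₗ[ℂ] H) := by
      apply Submodule.topologicalClosure_minimal
      · apply iSup₂_le
        intro V hV v hv
        show v - G.e v ∈ E τG
        apply Submodule.le_topologicalClosure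
        apply Submodule.mem_iSup_of_mem (ext G V)
        apply Submodule.mem_iSup_of_mem (ext_UMod hFG τF τG hV)
        have := ext_mem (G := G) hv (one_mem G.F)
        rwa [R_one] at this
      · exact (Submodule.isClosed_topologicalClosure _).preimage (1 - G.e : H →L[ℂ] H).continuous
    have h3 : ξ ∈ E τF := by
      have : E τF = F.HFᗮ := h
      rw [this]
      exact h1
    have h4 : ξ - G.e ξ ∈ E τG := h2 h3
    have h5 : G.e ξ = 0 := by
      apply e_zero
      intro f hf
      exact (Submodule.mem_orthogonal' _ _).1 hξ _ (vec_mem G hf)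
    rwa [h5, sub_zero] at h4

end Pool.Agent.N303.IE
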